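import Pool.Agent.Q92.LV.Rel
import Pool.Agent.Q5.RG.Asc3
import Pool.Agent.Q5.RG.PQ

/-! The ascent from proper subfields. -/

set_option autoImplicit false
set_option linter.unusedSectionVars false

namespace Pool.Agent.Q92.LV

open NumberField IsDedekindDomain Pool.Agent.W353.NF Pool.Agent.W401.Cheb
  Pool.Agent.Q5.BR Pool.Agent.Q5.RG Pool.Agent.Q5.SO
open scoped Classical

section
variable {K : Type} [Field K] [NumberField K]

/-- **The ascent**: a noncyclic group of automorphisms whose order is a product of two primes. -/
theorem pp_asc (b : Bool) {D : Set ℂ} (hD : (1 : ℂ) ∈ D) {E : WeierstrassCurve K}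
    (hE : E.IsElliptic) (P : Periods E) (F : Type) [Field F] [NumberField F] [Algebra K F]
    (A : Subgroup (F ≃ₐ[K] F)) {p q : ℕ} (hp : p.Prime) (hq : q.Prime)
    (hc : Nat.card A = p * q) (hn : ¬ IsCyclic A)
    (h : ∀ B : Subgroup (F ≃ₐ[K] F), B ≤ A → B ≠ ⊥ →
      ∀ [NumberField (IntermediateField.fixedField B)],
        PP b D P (IntermediateField.fixedField B) 1) : PP b D P F 1 := by
  have hfd : FiniteDimensional K F := fd_of_nf
  have hfG : Finite (F ≃ₐ[K] F) := inferInstance
  have hfA : Fintype A := Fintype.ofFinite A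
  have hfS : Fintype (Subgroup A) := Fintype.ofFinite _
  obtain ⟨nn, hnn, hnn'⟩ := rel_pq hp hq hc hn
  let ι : Type := {B : Subgroup A // nn B ≠ 0}
  have hfι : Fintype ι := Fintype.ofFinite _
  have hrel : ∀ g : A, fq (⊥ : Subgroup A) g = ∑ j : ι, nn j.1 * fq j.1 g := by
    intro g
    rw [hnn' g]
    have h2 : ∀ B : Subgroup A, B ∈ Finset.univ.filter (fun B => nn B ≠ 0) ↔ nn B ≠ 0 := by
      intro B
      simp
    rw [← Finset.sum_subtype (Finset.univ.filter (fun B => nn B ≠ 0)) h2
      (fun B => nn B * fq B g), Finset.sum_filter_of_ne]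
    intro B _ hB h3
    apply hB
    rw [h3, zero_mul]
  have hnf : ∀ B : Subgroup A, NumberField (IntermediateField.fixedField (B.map A.subtype)) :=
    fun B => NumberField.of_module_finite K _
  have h1 := rel_field A hrel
  have h2 := pp_solve b hD hE P (X₀ := @Ext.mk K _ _ F _ _ _)
    (X := fun j : ι =>
      @Ext.mk K _ _ (IntermediateField.fixedField (j.1.map A.subtype)) _ (hnf j.1) _)
    (n₀ := -1) (n := fun j => nn j.1) (fun σ => by
      have h3 := h1 σ
      change -1 * (fixn K F σ : ℤ) + ∑ j : ι, nn j.1 *
        (fixn K (IntermediateField.fixedField (j.1.map A.subtype)) σ : ℤ) = 0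
      rw [h3]
      ring) (-1) (fun j => by
        have h4 : j.1 ≠ ⊥ := hnn j.1 j.2
        have h5 := @h (j.1.map A.subtype) (map_sub_le A j.1) (fun h0 => h4 (by
          rwa [Subgroup.map_eq_bot_iff_of_injective _ (Subgroup.subtype_injective A)] at h0))
          (hnf j.1)
        let _ := hnf j.1
        exact (pp_law b hD hE P).neg (IntermediateField.fixedField (j.1.map A.subtype)) 1 h5)
  have e : (-1 : ℤ) * -1 = 1 := by norm_num
  rwa [e] at h2

/-- all subgroups of order `p q` are cyclic -/
def CycPQ' (G : Type) [Group G] : Prop :=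
  ∀ (A : Subgroup G) (p q : ℕ), p.Prime → q.Prime → Nat.card A = p * q → IsCyclic A

/-- **The reduction.** -/
theorem pp_reduce (b : Bool) {D : Set ℂ} (hD : (1 : ℂ) ∈ D) {E : WeierstrassCurve K}
    (hE : E.IsElliptic) (P : Periods E) (d : ℕ) :
    ∀ (F : Type) [Field F] [NumberField F] [Algebra K F], Module.finrank K F < d →
      (∀ (F' : Type) [Field F'] [NumberField F'] [Algebra K F'] [Algebra F' F]
        [IsScalarTower K F' F], CycPQ' (F' ≃ₐ[K] F') → PP b D P F' 1) → PP b D P F 1 := by
  induction d with
  | zero => intro F _ _ _ h; exact absurd h (Nat.not_lt_zero _)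
  | succ d ih =>
    intro F _ _ _ hD' h
    by_cases hF : CycPQ' (F ≃ₐ[K] F)
    · exact h F hF
    · unfold CycPQ' at hF
      push Not at hF
      obtain ⟨A, p, q, hp, hq, hc, hn⟩ := hF
      have hfd : FiniteDimensional K F := fd_of_nf
      refine pp_asc b hD hE P F A hp hq hc hn fun B hBA hB hnf => ?_
      refine ih (IntermediateField.fixedField B) ?_ fun F'' _ _ _ _ _ hc => ?_
      · have h1 := Module.finrank_mul_finrank K (IntermediateField.fixedField B) F
        rw [IntermediateField.finrank_fixedField_eq_card] at h1
        have h2 : 1 < Nat.card B := by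
          rw [Finite.one_lt_card_iff_nontrivial]
          exact (Subgroup.nontrivial_iff_ne_bot B).2 hB
        have h3 : 0 < Module.finrank K (IntermediateField.fixedField B) := Module.finrank_pos
        nlinarith
      · let _ : Algebra F'' F := ((algebraMap (IntermediateField.fixedField B) F).comp
          (algebraMap F'' (IntermediateField.fixedField B))).toAlgebra
        have : IsScalarTower K F'' F := IsScalarTower.of_algebraMap_eq fun x => by
          change _ = algebraMap (IntermediateField.fixedField B) F
            (algebraMap F'' (IntermediateField.fixedField B) (algebraMap K F'' x))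
          rw [← IsScalarTower.algebraMap_apply K F'' (IntermediateField.fixedField B),
            ← IsScalarTower.algebraMap_apply K (IntermediateField.fixedField B) F]
        exact h F'' hc

end

end Pool.Agent.Q92.LV
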