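import Pool.Agent.Q5.RG.Reg

/-! The determinants of an invariant pairing on the invariants of the subgroups in a relation. -/

set_option autoImplicit false
set_option linter.unusedSectionVars false

namespace Pool.Agent.Q92.LV

open Module Pool.Agent.Q5.RG
open Pool.Agent.Q5.SO (fq)
open scoped Classical

section
variable {k R G κ V : Type} [Field k] [CharZero k] [Field R] [Algebra k R] [Group G] [Fintype G]
  [Fintype κ] [AddCommGroup V] [Module k V]

/-- the Gram matrix -/
noncomputable def gram (β : V →ₗ[k] V →ₗ[k] R) {κ' : Type} (a : κ' → V) : Matrix κ' κ' R :=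
  Matrix.of fun l m => β (a l) (a m)

/-- the contragredient matrices -/
noncomputable def contra (A : G →* Matrix κ κ k) : G →* Matrix κ κ k where
  toFun g := (A g⁻¹).transpose
  map_one' := by rw [inv_one, map_one, Matrix.transpose_one]
  map_mul' g h := by rw [mul_inv_rev, map_mul, Matrix.transpose_mul]

theorem contra_apply (A : G →* Matrix κ κ k) (g : G) : contra A g = (A g⁻¹).transpose := rfl

theorem gram_equiv (ρ : Representation k G V) (v : Basis κ k V) (β : V →ₗ[k] V →ₗ[k] R)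
    (hβ : ∀ g x y, β (ρ g x) (ρ g y) = β x y) (g : G) :
    gram β v * (matR ρ v g).map (algebraMap k R) =
      (contra (matR ρ v) g).map (algebraMap k R) * gram β v := by
  ext l m
  have h1 : (gram β v * (matR ρ v g).map (algebraMap k R)) l m = β (v l) (ρ g (v m)) := by
    rw [matR_apply ρ v g m, map_sum, Matrix.mul_apply]
    refine Finset.sum_congr rfl fun i _ => ?_
    rw [map_smul, Matrix.map_apply, Algebra.smul_def, mul_comm]
    rfl
  have h2 : ((contra (matR ρ v) g).map (algebraMap k R) * gram β v) l m =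
      β (ρ g⁻¹ (v l)) (v m) := by
    rw [matR_apply ρ v g⁻¹ l, map_sum, LinearMap.sum_apply, Matrix.mul_apply]
    refine Finset.sum_congr rfl fun i _ => ?_
    rw [map_smul, LinearMap.smul_apply, Matrix.map_apply, Algebra.smul_def]
    rfl
  rw [h1, h2, ← hβ g⁻¹ (v l)]
  congr 1
  rw [← Module.End.mul_apply, ← map_mul, inv_mul_cancel, map_one]
  rfl

theorem gram_cor (v : Basis κ k V) (β : V →ₗ[k] V →ₗ[k] R) {κ' : Type} [Fintype κ']
    {W : Submodule k V} (a : Basis κ' k W) :
    gram β (fun l => (a l : V)) = ((cor v a).map (algebraMap k R)).transpose * gram β v *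
      (cor v a).map (algebraMap k R) := by
  ext l m
  have h : ∀ l, (a l : V) = ∑ i, cor v a i l • v i := fun l => (v.sum_repr (a l : V)).symm
  change β (a l : V) (a m : V) = _
  rw [h l, h m, map_sum, Matrix.mul_apply]
  refine Finset.sum_congr rfl fun j _ => ?_
  rw [Matrix.mul_apply, map_smul, Algebra.smul_def, Matrix.map_apply, mul_comm]
  congr 1
  rw [map_sum, LinearMap.sum_apply]
  refine Finset.sum_congr rfl fun i _ => ?_
  rw [map_smul, LinearMap.smul_apply, Algebra.smul_def, Matrix.transpose_apply, Matrix.map_apply]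
  rfl

/-- an invariant pairing over `k` is nondegenerate on the invariants -/
theorem det_inv_ne {A : G →* Matrix κ κ k} {Φ : Matrix κ κ k} (hΦ : Φ.det ≠ 0)
    (hΦA : ∀ g, Φ * A g = contra A g * Φ) {H : Subgroup G} {κ' : Type} [Fintype κ']
    {P : Matrix κ κ' k} (hP : IsInv A H P) : (P.transpose * Φ * P).det ≠ 0 := by
  obtain ⟨h1, h2⟩ := hP
  intro h0
  obtain ⟨y, hy, hy0⟩ := Matrix.exists_mulVec_eq_zero_iff.2 h0
  apply hy
  have hx : ∀ h ∈ H, (A h).mulVec (P.mulVec y) = P.mulVec y := (h2 _).2 ⟨y, rfl⟩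
  -- the mean value of a vector
  have havg : ∀ z : κ → k, ∃ w, P.mulVec w = ∑ h : H, (A h.1).mulVec z := by
    intro z
    refine (h2 _).1 fun g hg => ?_
    have h3 : (A g).mulVec (∑ h : H, (A h.1).mulVec z) = ∑ h : H, (A g).mulVec ((A h.1).mulVec z) :=
      map_sum (A g).mulVecLin _ _
    rw [h3, ← Equiv.sum_comp (Equiv.mulLeft (⟨g, hg⟩ : H)) (fun h : H => (A h.1).mulVec z)]
    refine Finset.sum_congr rfl fun h _ => ?_
    rw [Matrix.mulVec_mulVec, ← map_mul]
    rfl
  have hinv : ∀ (z : κ → k) (h : H), dotProduct ((A h.1).mulVec z) (Φ.mulVec (P.mulVec y)) =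
      dotProduct z (Φ.mulVec (P.mulVec y)) := by
    intro z h
    have h3 : (A h.1).transpose * Φ = Φ * A (h.1)⁻¹ := by
      rw [hΦA, contra_apply, inv_inv]
    have h4 : dotProduct ((A h.1).mulVec z) (Φ.mulVec (P.mulVec y)) =
        dotProduct z (((A h.1).transpose * Φ).mulVec (P.mulVec y)) := by
      rw [← Matrix.mulVec_mulVec, Matrix.dotProduct_mulVec z, Matrix.vecMul_transpose]
    rw [h4, h3, ← Matrix.mulVec_mulVec, hx _ (H.inv_mem h.2)]
  have hS : ∀ w : κ' → k, dotProduct (P.mulVec w) (Φ.mulVec (P.mulVec y)) = 0 := by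
    intro w
    have h3 : dotProduct (P.mulVec w) (Φ.mulVec (P.mulVec y)) =
        dotProduct w ((P.transpose * Φ * P).mulVec y) := by
      rw [← Matrix.mulVec_mulVec, ← Matrix.mulVec_mulVec, Matrix.dotProduct_mulVec w,
        Matrix.vecMul_transpose]
    rw [h3, hy0, dotProduct_zero]
  have hz : ∀ z : κ → k, dotProduct z (Φ.mulVec (P.mulVec y)) = 0 := by
    intro z
    obtain ⟨w, hw⟩ := havg z
    have h3 := hS w
    rw [hw] at h3
    have h4 : dotProduct (∑ h : H, (A h.1).mulVec z) (Φ.mulVec (P.mulVec y)) =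
        ∑ h : H, dotProduct ((A h.1).mulVec z) (Φ.mulVec (P.mulVec y)) := by
      exact sum_dotProduct _ _ _
    rw [h4, Finset.sum_congr rfl fun h _ => hinv z h, Finset.sum_const, Finset.card_univ,
      nsmul_eq_mul] at h3
    have h5 : ((Fintype.card H : ℕ) : k) ≠ 0 := by exact_mod_cast Fintype.card_ne_zero
    exact (mul_eq_zero.1 h3).resolve_left h5
  have h6 : Φ.mulVec (P.mulVec y) = 0 := by
    funext i
    have := hz (Pi.single i 1)
    rwa [single_one_dotProduct] at this
  have h7 : P.mulVec y = 0 := by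
    have hu : IsUnit Φ.det := isUnit_iff_ne_zero.2 hΦ
    have h8 := congrArg (Φ⁻¹).mulVec h6
    rwa [Matrix.mulVec_mulVec, Matrix.nonsing_inv_mul _ hu, Matrix.one_mulVec,
      Matrix.mulVec_zero] at h8
  exact h1 (by rw [h7, Matrix.mulVec_zero])

/-- **The Gram determinants in a relation.** -/
theorem gram_rel (ρ : Representation k G V) (v : Basis κ k V) (β : V →ₗ[k] V →ₗ[k] R)
    (hβ : ∀ g x y, β (ρ g x) (ρ g y) = β x y) (hdet : (gram β v).det ≠ 0)
    {ι : Type} [Fintype ι] (H : ι → Subgroup G) (n : ι → ℤ) (h : ∀ g, ∑ j, n j * fq (H j) g = 0)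
    (κ' : ι → Type) [∀ j, Fintype (κ' j)] (a : ∀ j, Basis (κ' j) k (inv ρ (H j))) :
    ∃ q : k, q ≠ 0 ∧ ∏ j, (gram β (fun l => (a j l : V))).det ^ (n j) = algebraMap k R q := by
  set A := matR ρ v with hA
  obtain ⟨Φ, hΦ, hΦA⟩ := exists_rat A (contra A) (gram β v) hdet (gram_equiv ρ v β hβ)
  have hΦu : IsUnit Φ.det := isUnit_iff_ne_zero.2 hΦ
  have hΦ1 : Φ⁻¹ * Φ = 1 := Matrix.nonsing_inv_mul _ hΦu
  have hΦ2 : Φ * Φ⁻¹ = 1 := Matrix.mul_nonsing_inv _ hΦu
  have hAΦ : ∀ g, A g * Φ⁻¹ = Φ⁻¹ * contra A g := by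
    intro g
    calc A g * Φ⁻¹ = (Φ⁻¹ * Φ) * A g * Φ⁻¹ := by rw [hΦ1, one_mul]
      _ = Φ⁻¹ * (Φ * A g) * Φ⁻¹ := by rw [mul_assoc Φ⁻¹ Φ]
      _ = Φ⁻¹ * contra A g := by
        rw [hΦA g, ← mul_assoc Φ⁻¹, mul_assoc (Φ⁻¹ * contra A g), hΦ2, mul_one]
  set T : Matrix κ κ R := (Φ⁻¹).map (algebraMap k R) * gram β v with hT
  have hTA : ∀ g, T * (A g).map (algebraMap k R) = (A g).map (algebraMap k R) * T := by
    intro g
    rw [hT, Matrix.mul_assoc, gram_equiv ρ v β hβ g, ← Matrix.mul_assoc, ← Matrix.map_mul,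
      ← Matrix.mul_assoc, ← Matrix.map_mul, hAΦ g]
  have hΦT : Φ.map (algebraMap k R) * T = gram β v := by
    rw [hT, ← Matrix.mul_assoc, ← Matrix.map_mul, hΦ2]
    simp
  have hT0 : T.det ≠ 0 := by
    intro h0
    apply hdet
    rw [← hΦT, Matrix.det_mul, h0, mul_zero]
  have hP := fun j => isInv_cor ρ v (H j) (a j)
  have hX : ∀ j, ∃ X : Matrix (κ' j) (κ' j) R, T * (cor v (a j)).map (algebraMap k R) =
      (cor v (a j)).map (algebraMap k R) * X := by
    intro j
    obtain ⟨-, h2⟩ := (hP j).ext R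
    have h1 : ∀ m, ∃ y, ((cor v (a j)).map (algebraMap k R)).mulVec y =
        (T * (cor v (a j)).map (algebraMap k R)).col m := by
      intro m
      refine (h2 _).1 fun g hg => ?_
      have h3 := (h2 (((cor v (a j)).map (algebraMap k R)).col m)).2
        ⟨Pi.single m 1, Matrix.mulVec_single_one _ _⟩ g hg
      have h4 : (T * (cor v (a j)).map (algebraMap k R)).col m =
          T.mulVec (((cor v (a j)).map (algebraMap k R)).col m) := by
        rw [← Matrix.mulVec_single_one, ← Matrix.mulVec_single_one, Matrix.mulVec_mulVec]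
      rw [h4, ext_apply, Matrix.mulVec_mulVec, ← hTA g, ← Matrix.mulVec_mulVec]
      rw [ext_apply] at h3
      rw [h3]
    choose Y hY using h1
    refine ⟨Matrix.of fun l m => Y m l, ?_⟩
    ext l m
    rw [Matrix.mul_apply]
    exact (congrFun (hY m) l).symm
  choose X hX using hX
  have hkey := det_matrix A T hT0 hTA H n h κ' (fun j => cor v (a j)) hP X hX
  have hgram : ∀ j, gram β (fun l => (a j l : V)) =
      ((cor v (a j)).transpose * Φ * cor v (a j)).map (algebraMap k R) * X j := by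
    intro j
    rw [gram_cor v, Matrix.map_mul, Matrix.map_mul, Matrix.transpose_map, ← hΦT]
    have h9 := hX j
    simp only [Matrix.mul_assoc] at h9 ⊢
    rw [h9]
  have hS : ∀ j, ((cor v (a j)).transpose * Φ * cor v (a j)).det ≠ 0 := fun j =>
    det_inv_ne hΦ hΦA (hP j)
  refine ⟨∏ j, ((cor v (a j)).transpose * Φ * cor v (a j)).det ^ (n j),
    Finset.prod_ne_zero_iff.2 fun j _ => zpow_ne_zero _ (hS j), ?_⟩
  have h1 : ∀ j, (gram β (fun l => (a j l : V))).det ^ (n j) =
      algebraMap k R (((cor v (a j)).transpose * Φ * cor v (a j)).det ^ (n j)) *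
        (X j).det ^ (n j) := by
    intro j
    rw [hgram j, Matrix.det_mul, mul_zpow, map_zpow₀]
    congr 2
    have h2 := RingHom.map_det (algebraMap k R) ((cor v (a j)).transpose * Φ * cor v (a j))
    rw [RingHom.mapMatrix_apply] at h2
    exact h2.symm
  rw [Finset.prod_congr rfl fun j _ => h1 j, Finset.prod_mul_distrib, hkey, mul_one, map_prod]

end

end Pool.Agent.Q92.LV
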