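import Pool.Agent.Q286.EQ.MW
import Pool.Agent.H437R2.Man.MWCan
import Pool.Agent.Helper259.HtExt

/-! Canonical heights on the points of an elliptic curve over a number field. -/

set_option autoImplicit false
set_option linter.unusedSectionVars false

namespace Pool.Agent.Q92.LV

open WeierstrassCurve NumberField Height Polynomial Pool.Agent.H437R2.Man.MW
open scoped Classical

section
variable {F : Type} [Field F] [NumberField F]

/-- `q` is a canonical height on the points of `W` (relative to `F`) -/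
def IsCan (W : WeierstrassCurve F) (q : W.toAffine.Point → ℝ) : Prop :=
  (∀ P Q, q (P + Q) + q (P - Q) = 2 * (q P + q Q)) ∧ ∃ C : ℝ, ∀ P, |q P - logHeight P.xRep| ≤ C

/-- the curve over a field containing the points of order two -/
theorem full_torsion (W : WeierstrassCurve F) (hΔ : W.Δ ≠ 0) :
    ∃ (L : Type) (_ : Field L) (_ : NumberField L) (_ : Algebra F L) (e1 e2 e3 : L),
      e1 ≠ e2 ∧ e1 ≠ e3 ∧ e2 ≠ e3 ∧
      ∃ f : W.toAffine.Point →+ (crv e1 e2 e3).toAffine.Point, Function.Injective f ∧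
        ∀ P i, (f P).xRep i = algebraMap F L (P.xRep i) := by
  let P : Cubic F := ⟨1, W.b₂ / 4, W.b₄ / 2, W.b₆ / 4⟩
  let L : Type := P.toPoly.SplittingField
  have hnf : NumberField L := NumberField.of_module_finite F L
  have ha : P.a ≠ 0 := one_ne_zero
  have hsp : Splits (P.toPoly.map (algebraMap F L)) := SplittingField.splits P.toPoly
  obtain ⟨x, y, z, h3⟩ := (Cubic.splits_iff_roots_eq_three ha).1 hsp
  have hdisc : P.discr ≠ 0 := by
    have h4 : (4 : F) * W.b₈ = W.b₂ * W.b₆ - W.b₄ ^ 2 := W.b_relation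
    have h : 16 * P.discr = W.Δ := by
      simp only [Cubic.discr, P, WeierstrassCurve.Δ]
      linear_combination (W.b₂ ^ 2 / 4) * h4
    intro h0
    rw [h0, mul_zero] at h
    exact hΔ h.symm
  obtain ⟨hxy, hxz, hyz⟩ := (Cubic.discr_ne_zero_iff_roots_ne ha h3).1 hdisc
  have hb := Cubic.b_eq_three_roots ha h3
  have hc := Cubic.c_eq_three_roots ha h3
  have hd := Cubic.d_eq_three_roots ha h3
  simp only [P, map_one, one_mul, map_div₀, map_ofNat] at hb hc hd
  have hvr : Pool.Agent.Y700.VR (W.map (algebraMap F L))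
      (crv (-x) (-y) (-z)) 1 0 (-(algebraMap F L W.a₁) / 2)
      (-(algebraMap F L W.a₃) / 2) := by
    have e1 : algebraMap F L W.b₂ = (algebraMap F L W.a₁) ^ 2 + 4 * algebraMap F L W.a₂ := by
      rw [WeierstrassCurve.b₂, map_add, map_mul, map_pow, map_ofNat]
    have e2 : algebraMap F L W.b₄ = 2 * (algebraMap F L W.a₄) + algebraMap F L W.a₁ *
        algebraMap F L W.a₃ := by
      rw [WeierstrassCurve.b₄, map_add, map_mul, map_mul, map_ofNat]
    have e3 : algebraMap F L W.b₆ = (algebraMap F L W.a₃) ^ 2 + 4 * algebraMap F L W.a₆ := by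
      rw [WeierstrassCurve.b₆, map_add, map_mul, map_pow, map_ofNat]
    rw [e1] at hb
    rw [e2] at hc
    rw [e3] at hd
    refine ⟨one_ne_zero, ?_, ?_, ?_, ?_, ?_⟩
    · change (1 : L) * 0 = algebraMap F L W.a₁ + 2 * _
      ring
    · change (1 : L) ^ 2 * (-x + -y + -z) = algebraMap F L W.a₂ - _ * algebraMap F L W.a₁ + _ - _
      linear_combination -hb
    · change (1 : L) ^ 3 * 0 = algebraMap F L W.a₃ + _ * algebraMap F L W.a₁ + _
      ring
    · change (1 : L) ^ 4 * (-x * -y + -x * -z + -y * -z) = algebraMap F L W.a₄ -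
        _ * algebraMap F L W.a₃ + 2 * _ * algebraMap F L W.a₂ - _ * algebraMap F L W.a₁ + _ - _
      linear_combination -hc
    · change (1 : L) ^ 6 * (-x * -y * -z) = algebraMap F L W.a₆ + _ * algebraMap F L W.a₄ +
        _ ^ 2 * algebraMap F L W.a₂ + _ - _ * algebraMap F L W.a₃ - _ - _ * algebraMap F L W.a₁
      linear_combination -hd
  have hΔL : (crv (-x) (-y) (-z)).Δ ≠ 0 := by
    rw [crv_Δ]
    have h1 := sub_ne_zero.2 hxy
    have h2 := sub_ne_zero.2 hxz
    have h3 := sub_ne_zero.2 hyz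
    have h4 : (16 : L) * ((x - y) * (x - z) * (y - z)) ^ 2 ≠ 0 :=
      mul_ne_zero (by norm_num) (pow_ne_zero _ (mul_ne_zero (mul_ne_zero h1 h2) h3))
    intro h0
    apply h4
    linear_combination h0
  let g : W.toAffine.Point →+ (W.map (algebraMap F L)).toAffine.Point :=
    Affine.Point.map (W' := W.toAffine) (Algebra.ofId F L)
  have hg : Function.Injective g := Affine.Point.map_injective (W' := W.toAffine) (Algebra.ofId F L)
  refine ⟨L, inferInstance, hnf, inferInstance, -x, -y, -z, fun h => hxy (neg_injective h),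
    fun h => hxz (neg_injective h), fun h => hyz (neg_injective h),
    (hvr.equiv hΔL).symm.toAddMonoidHom.comp g, (hvr.equiv hΔL).symm.injective.comp hg, ?_⟩
  intro P i
  obtain ⟨Q, hQ⟩ : ∃ Q, (hvr.equiv hΔL).symm (g P) = Q := ⟨_, rfl⟩
  have hQ' : hvr.fn hΔL Q = g P := by
    rw [← hQ, ← Pool.Agent.Y700.VR.equiv_apply, AddEquiv.apply_symm_apply]
  change ((hvr.equiv hΔL).symm (g P)).xRep i = _
  rw [hQ]
  match P, Q with
  | 0, 0 => fin_cases i <;> simp
  | 0, .some a b h => exact absurd hQ' (Affine.Point.some_ne_zero _)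
  | .some a b h, 0 => exact absurd hQ'.symm (Affine.Point.some_ne_zero _)
  | .some a b h, .some c d h' =>
    have h1 : (1 : L) ^ 2 * c + 0 = algebraMap F L a := by
      have h2 := (Affine.Point.some.inj hQ').1
      exact h2
    rw [one_pow, one_mul, add_zero] at h1
    fin_cases i
    · simp [h1]
    · simp

/-- the approximate parallelogram law -/
theorem par_all (W : WeierstrassCurve F) (hΔ : W.Δ ≠ 0) :
    ∃ C : ℝ, ∀ P Q : W.toAffine.Point, |logHeight (P + Q).xRep + logHeight (P - Q).xRep -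
      2 * (logHeight P.xRep + logHeight Q.xRep)| ≤ C := by
  obtain ⟨L, _, _, _, e1, e2, e3, h12, h13, h23, f, hf, hx⟩ := full_torsion W hΔ
  obtain ⟨C, -, hC⟩ := par_law h12 h13 h23
  have hn : (0 : ℝ) < Module.finrank F L := by
    exact_mod_cast (Module.finrank_pos : 0 < Module.finrank F L)
  have hht : ∀ P, ht (f P) = Module.finrank F L * logHeight P.xRep := by
    intro P
    rw [ht, ← Pool.Agent.Helper259.HtExt.logHeight_ext]
    congr 1
    funext i
    exact hx P i
  refine ⟨C / Module.finrank F L, fun P Q => ?_⟩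
  have h1 := hC (f P) (f Q)
  rw [← map_add, ← map_sub, hht, hht, hht, hht] at h1
  rw [le_div_iff₀ hn, ← abs_of_pos hn, ← abs_mul]
  refine le_trans (le_of_eq ?_) h1
  congr 1
  ring

theorem exists_can (W : WeierstrassCurve F) (hΔ : W.Δ ≠ 0) : ∃ q, IsCan W q := by
  obtain ⟨C, hC⟩ := par_all W hΔ
  obtain ⟨q, C', h1, -, h3⟩ := canon (fun P : W.toAffine.Point => logHeight P.xRep) C
    (fun P => logHeight_nonneg _) hC
  exact ⟨q, h3, C', h1⟩

/-- functions with the parallelogram law and bounded values vanish -/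
theorem par_bdd {A : Type} [AddCommGroup A] {q : A → ℝ}
    (hq : ∀ P Q, q (P + Q) + q (P - Q) = 2 * (q P + q Q)) {C : ℝ} {P : A}
    (hC : ∀ n : ℕ, |q ((2 ^ n : ℕ) • P)| ≤ C) : q P = 0 := by
  have q0 : q 0 = 0 := by
    have := hq 0 0
    rw [add_zero, sub_zero] at this
    linarith
  have h2 : ∀ R, q (R + R) = 4 * q R := by
    intro R
    have := hq R R
    rw [sub_self, q0] at this
    linarith
  have hpow : ∀ n : ℕ, q ((2 ^ n : ℕ) • P) = 4 ^ n * q P := by
    intro n
    induction n with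
    | zero => simp
    | succ n ih =>
      have h3 : (2 ^ (n + 1) : ℕ) • P = (2 ^ n : ℕ) • P + (2 ^ n : ℕ) • P := by
        rw [pow_succ, mul_comm, mul_smul, two_smul]
      rw [h3, h2, ih]
      ring
  by_contra hne
  have hpos : 0 < |q P| := abs_pos.2 hne
  obtain ⟨n, hn⟩ := pow_unbounded_of_one_lt (C / |q P|) (by norm_num : (1 : ℝ) < 4)
  have h3 := hC n
  rw [hpow, abs_mul, abs_of_pos (by positivity : (0 : ℝ) < 4 ^ n)] at h3
  rw [div_lt_iff₀ hpos] at hn
  linarith

theorem IsCan.unique {W : WeierstrassCurve F} {q q' : W.toAffine.Point → ℝ} (h : IsCan W q)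
    (h' : IsCan W q') : q = q' := by
  obtain ⟨h1, C, hC⟩ := h
  obtain ⟨h1', C', hC'⟩ := h'
  funext P
  have h2 := par_bdd (q := fun P => q P - q' P) (P := P) (C := C + C')
    (fun P Q => by linear_combination h1 P Q - h1' P Q) (fun n => by
      have a1 := hC ((2 ^ n : ℕ) • P)
      have a2 := hC' ((2 ^ n : ℕ) • P)
      rw [abs_le] at a1 a2 ⊢
      constructor <;> linarith [a1.1, a1.2, a2.1, a2.2])
  exact sub_eq_zero.1 h2

theorem IsCan.two_pow {W : WeierstrassCurve F} {q : W.toAffine.Point → ℝ} (h : IsCan W q)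
    (P : W.toAffine.Point) (n : ℕ) : q ((2 ^ n : ℕ) • P) = 4 ^ n * q P := by
  obtain ⟨hq, -⟩ := h
  have q0 : q 0 = 0 := by
    have := hq 0 0
    rw [add_zero, sub_zero] at this
    linarith
  have h2 : ∀ R, q (R + R) = 4 * q R := by
    intro R
    have := hq R R
    rw [sub_self, q0] at this
    linarith
  induction n with
  | zero => simp
  | succ n ih =>
    have h3 : (2 ^ (n + 1) : ℕ) • P = (2 ^ n : ℕ) • P + (2 ^ n : ℕ) • P := by
      rw [pow_succ, mul_comm, mul_smul, two_smul]
    rw [h3, h2, ih]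
    ring

theorem IsCan.nonneg {W : WeierstrassCurve F} {q : W.toAffine.Point → ℝ} (h : IsCan W q)
    (P : W.toAffine.Point) : 0 ≤ q P := by
  obtain ⟨C, hC⟩ := h.2
  by_contra hne
  push Not at hne
  obtain ⟨n, hn⟩ := pow_unbounded_of_one_lt (C / (-q P)) (by norm_num : (1 : ℝ) < 4)
  have h3 := hC ((2 ^ n : ℕ) • P)
  rw [h.two_pow, abs_le] at h3
  have h4 : 0 ≤ logHeight ((2 ^ n : ℕ) • P).xRep := logHeight_nonneg _
  rw [div_lt_iff₀ (by linarith)] at hn
  nlinarith [h3.1, h3.2]

/-- Northcott's theorem -/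
theorem finite_height (W : WeierstrassCurve F) (B : ℝ) :
    {P : W.toAffine.Point | logHeight P.xRep ≤ B}.Finite := by
  have hfin := NumberField.finite_setOfPred_logHeight₁_le (K := F) B
  have h1 : ((fun P : W.toAffine.Point => P.xRep) ''
      {P : W.toAffine.Point | logHeight P.xRep ≤ B}).Finite := by
    apply Set.Finite.subset ((hfin.image (fun x : F => ![x, 1])).union (Set.finite_singleton ![1, 0]))
    rintro _ ⟨P, hP, rfl⟩
    match P, hP with
    | 0, _ => right; simp
    | .some x y h, hP =>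
      left
      refine ⟨x, ?_, by simp⟩
      simp only [Set.mem_ofPred_eq, Affine.Point.xRep_some] at hP
      simp only [Set.mem_ofPred_eq]
      rw [logHeight₁_eq_logHeight]
      exact hP
  apply Set.Finite.of_finite_fibers _ h1
  intro v _
  by_cases hv : ∃ P : W.toAffine.Point, P.xRep = v
  · obtain ⟨P, rfl⟩ := hv
    apply Set.Finite.subset (s := {P, -P}) (by simp)
    intro Q hQ
    have : Q.xRep = P.xRep := hQ.2
    rcases Affine.Point.eq_or_eq_neg_of_xRep_eq_xRep this with h | h
    · left; exact h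
    · right; exact h
  · apply Set.Finite.subset (Set.finite_empty)
    intro Q hQ
    exact absurd ⟨Q, hQ.2⟩ hv

theorem IsCan.finite {W : WeierstrassCurve F} {q : W.toAffine.Point → ℝ} (h : IsCan W q)
    (B : ℝ) : {P : W.toAffine.Point | q P ≤ B}.Finite := by
  obtain ⟨C, hC⟩ := h.2
  refine (finite_height W (B + C)).subset fun P hP => ?_
  have h1 := hC P
  rw [abs_le] at h1
  have h2 : q P ≤ B := hP
  change logHeight P.xRep ≤ B + C
  linarith [h1.1]

end

end Pool.Agent.Q92.LV
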