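import Pool.Agent.Q92.LV.Lead
import Pool.Agent.Q5.VL.Abs
import Pool.Agent.Q5.RG.Fam

/-! The laws for the leading coefficients. -/

set_option autoImplicit false
set_option linter.unusedSectionVars false

namespace Pool.Agent.Q92.LV

open NumberField IsDedekindDomain Filter Pool.Agent.W353.NF Pool.Agent.W401.Cheb
  Pool.Agent.Q5.BR Pool.Agent.Q92.FE Topology
open Pool.Agent.TH322.BC.Edge (MinimalModels)
open scoped Classical

/-- a regulator -/
noncomputable def reg {F : Type} [Field F] [NumberField F] (W : WeierstrassCurve F) : ℝ :=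
  if h : ∃ c, IsRegE W c then h.choose else 1

theorem reg_spec {F : Type} [Field F] [NumberField F] {W : WeierstrassCurve F}
    (hW : W.IsElliptic) : IsRegE W (reg W) := by
  have h := exists_regE (W := W) W.isUnit_Δ.ne_zero
  unfold reg
  rw [dif_pos h]
  exact h.choose_spec

section
variable {K : Type} [Field K] [NumberField K]

/-- the regulators in a relation, with the base field -/
theorem reg_rel' {ι : Type} [Fintype ι] {X : ι → Ext K} {n : ι → ℤ} {m : ℤ}
    (h : ∀ σ : GK K, ∑ j, n j * (fixn K (X j).F σ : ℤ) = m) {E : WeierstrassCurve K}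
    (hE : E.IsElliptic) :
    Sim (∏ j, (reg (E.map (algebraMap K (X j).F))) ^ (n j)) (reg E ^ m) := by
  have hid : E.map (algebraMap K K) = E := by
    rw [Algebra.algebraMap_self, WeierstrassCurve.map_id]
  obtain ⟨q, hq, h1⟩ := regE_relation (X := cons X) (n := coef m n) (cons_rel h) hE
    (c := fun o => match o with
      | none => reg E
      | some j => reg (E.map (algebraMap K (X j).F))) (by
      rintro (_ | j)
      · change IsRegE (E.map (algebraMap K K)) (reg E)
        rw [hid]
        exact reg_spec hE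
      · exact reg_spec (W := E.map (algebraMap K (X j).F)) inferInstance)
  rw [Fintype.prod_option] at h1
  change reg E ^ (-m) * ∏ j, (reg (E.map (algebraMap K (X j).F))) ^ (n j) = (q : ℝ) at h1
  have h0 := (reg_spec hE).ne
  refine ⟨q, hq, ?_⟩
  rw [← h1, mul_assoc, mul_comm (∏ j, _), ← mul_assoc, ← zpow_add₀ h0, neg_add_cancel, zpow_zero,
    one_mul]

theorem rk_rel' {ι : Type} [Fintype ι] {X : ι → Ext K} {n : ι → ℤ} {m : ℤ}
    (h : ∀ σ : GK K, ∑ j, n j * (fixn K (X j).F σ : ℤ) = m) {E : WeierstrassCurve K}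
    (hE : E.IsElliptic) :
    ∑ j, n j * (rk (E.map (algebraMap K (X j).F)) : ℤ) = m * rk E := by
  have h3 := rank_relation h hE
  have h4 : (Module.finrank ℤ (E.baseChange K).toAffine.Point : ℤ) = (rk E : ℤ) := by
    rw [← rk_baseChange E]
    rfl
  rw [h4] at h3
  exact h3

/-- the two cases: `b = false`: `L(1)` is not zero; `b = true`: with ranks and regulators -/
noncomputable def rr' (b : Bool) {F : Type} [Field F] (W : WeierstrassCurve F) : ℤ :=
  if b then (rk W : ℤ) else 0

/-- the constants -/
noncomputable def cst (b : Bool) {F : Type} [Field F] [NumberField F] {W : WeierstrassCurve F}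
    (p : Periods W) : ℝ := if b then p.Om * reg W else p.Om

theorem cst_ne (b : Bool) {W : WeierstrassCurve K} (hW : W.IsElliptic) (p : Periods W) :
    cst b p ≠ 0 := by
  unfold cst
  split_ifs
  · exact mul_ne_zero (om_ne p) (reg_spec hW).ne
  · exact om_ne p

theorem cst_congr (b : Bool) {W W' : WeierstrassCurve K} (h : W = W') {p : Periods W}
    {p' : Periods W'} (hp : p.Om = p'.Om) : cst b p = cst b p' := by
  subst h
  unfold cst
  rw [hp]

theorem rr_rel' (b : Bool) {ι : Type} [Fintype ι] {X : ι → Ext K} {n : ι → ℤ} {m : ℤ}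
    (h : ∀ σ : GK K, ∑ j, n j * (fixn K (X j).F σ : ℤ) = m) {E : WeierstrassCurve K}
    (hE : E.IsElliptic) :
    ∑ j, n j * rr' b (E.map (algebraMap K (X j).F)) = m * rr' b E := by
  unfold rr'
  cases b
  · simp
  · simp only [if_true]
    exact rk_rel' h hE

theorem cst_rel (b : Bool) {ι : Type} [Fintype ι] {X : ι → Ext K} {n : ι → ℤ} {m : ℤ}
    (h : ∀ σ : GK K, ∑ j, n j * (fixn K (X j).F σ : ℤ) = m) {E : WeierstrassCurve K}
    (hE : E.IsElliptic) (p : Periods E) :
    Sim (∏ j, (cst b (p.up (X j).F)) ^ (n j)) (cst b p ^ m) := by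
  unfold cst
  cases b
  · simp only [Bool.false_eq_true, if_false]
    exact om_rel' h p
  · simp only [if_true, mul_zpow, Finset.prod_mul_distrib]
    exact (om_rel' h p).mul (reg_rel' h hE)

/-- the property -/
def PP (b : Bool) (D : Set ℂ) {E : WeierstrassCurve K} (p : Periods E) (F : Type) [Field F]
    [NumberField F] [Algebra K F] (t : ℤ) : Prop :=
  AllLT D (E.map (algebraMap K F)) t (rr' b (E.map (algebraMap K F))) (cst b (p.up F))

/-- **The law.** -/
theorem pp_law (b : Bool) {D : Set ℂ} (hD : (1 : ℂ) ∈ D) {E : WeierstrassCurve K}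
    (hE : E.IsElliptic) (p : Periods E) :
    Pool.Agent.Q5.VL.IsLaw (K := K) (fun F _ _ _ t => PP b D p F t) where
  zero := fun F _ _ _ V _ => LT.zero V _ _
  add := by
    intro F _ _ _ t u ht hu V hV
    have hEF : (E.map (algebraMap K F)).IsElliptic := inferInstance
    exact LT.add hD hEF hV (cst_ne b hEF _) (ht V hV) (hu V hV)
  neg := fun F _ _ _ t ht V hV => LT.neg hD (ht V hV)
  step := by
    intro F _ _ _ ι _ Y _ _ n m hrel t hj
    have hEF : (E.map (algebraMap K F)).IsElliptic := inferInstance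
    have he : ∀ j, (E.map (algebraMap K F)).map (algebraMap F (Y j).F) =
        E.map (algebraMap K (Y j).F) := fun j => by
      rw [WeierstrassCurve.map_map, ← IsScalarTower.algebraMap_eq K F (Y j).F]
    have h1 := rr_rel' b hrel hEF
    have h2 := cst_rel b hrel hEF (p.up F)
    refine lt_step hD hrel hEF h1 h2 t fun j => ?_
    have h3 := hj j
    unfold PP at h3
    rw [cst_congr b (he j) (up_up p F (Y j).F), he j]
    exact h3

/-- the property over the base field -/
theorem pp_self (b : Bool) {D : Set ℂ} {E : WeierstrassCurve K} (p : Periods E) (t : ℤ) :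
    PP b D p K t ↔ AllLT D E t (rr' b E) (cst b p) := by
  have he : E.map (algebraMap K K) = E := by
    rw [Algebra.algebraMap_self, WeierstrassCurve.map_id]
  unfold PP
  rw [cst_congr b he (up_self p), he]

/-- **Exact families.** -/
theorem pp_exact (b : Bool) {D : Set ℂ} (hD : (1 : ℂ) ∈ D) {E : WeierstrassCurve K}
    (hE : E.IsElliptic) (p : Periods E) {𝓕 : Set (IntermediateField K (AlgebraicClosure K))}
    (hF : Pool.Agent.Q5.SO.Exact 𝓕) (h : ∀ F ∈ 𝓕, ∀ [NumberField F], PP b D p F 1) :
    PP b D p K 1 := by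
  obtain ⟨ι, _, F, n, hFj, hrel⟩ := Pool.Agent.Q5.SO.exact_relation hF
  have hfd : ∀ j, FiniteDimensional K (F j) := fun j => hF.1 _ (hFj j)
  have hnf : ∀ j, NumberField (F j) := fun j => NumberField.of_module_finite K _
  let Y : ι → Ext K := fun j => @Ext.mk K _ _ (F j) _ (hnf j) _
  have h1 := (pp_law b hD hE p).step K ι Y n 1 hrel 1 fun j => h (F j) (hFj j)
  rwa [one_mul] at h1

/-- **Galois extensions.** -/
theorem pp_galois (b : Bool) {D : Set ℂ} (hD : (1 : ℂ) ∈ D) {E : WeierstrassCurve K}
    (hE : E.IsElliptic) (p : Periods E) (L : Type) [Field L] [NumberField L] [Algebra K L]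
    [IsGalois K L]
    (h : ∀ (F : Type) [Field F] [NumberField F] [Algebra K F] [Algebra F L] [IsScalarTower K F L],
      Pool.Agent.Q5.SO.Hyper (L ≃ₐ[F] L) → PP b D p F 1)
    (F : Type) [Field F] [NumberField F] [Algebra K F] [Algebra F L] [IsScalarTower K F L] :
    PP b D p F 1 := by
  have hgal : IsGalois F L := IsGalois.tower_top_of_isGalois K F L
  obtain ⟨ι, hι, Y, a, n, hst, hY, hrel⟩ := Pool.Agent.Q5.RG.hyper_relation' L F
  let _ : ∀ j, Algebra K (Y j).F := fun j =>
    ((algebraMap F (Y j).F).comp (algebraMap K F)).toAlgebra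
  have hst1 : ∀ j, IsScalarTower K F (Y j).F := fun j =>
    IsScalarTower.of_algebraMap_eq fun x => rfl
  have hst2 : ∀ j, @IsScalarTower K (Y j).F L _ (a j).toSMul _ := fun j => by
    let _ := a j
    have := hst j
    refine IsScalarTower.of_algebraMap_eq fun x => ?_
    rw [IsScalarTower.algebraMap_apply K F (Y j).F, ← IsScalarTower.algebraMap_apply F (Y j).F L,
      ← IsScalarTower.algebraMap_apply K F L]
  have h1 := (pp_law b hD hE p).step F ι Y n 1 hrel 1 fun j => by
    let _ := a j
    have := hst2 j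
    exact h (Y j).F (hY j)
  rwa [one_mul] at h1

end

end Pool.Agent.Q92.LV
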