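import Pool.Agent.Q92.LV.Height

/-! The height pairing: functoriality and nondegeneracy. -/

set_option autoImplicit false
set_option linter.unusedSectionVars false

namespace Pool.Agent.Q92.LV

open WeierstrassCurve NumberField Height Pool.Agent.H437R2.Man.MW
open scoped Classical

section
variable {K F N : Type} [Field K] [Field F] [NumberField F] [Field N] [NumberField N] [Algebra K F]
  [Algebra K N]

theorem xRep_map (E : WeierstrassCurve K) (i : F →ₐ[K] N) (P : (E.baseChange F).toAffine.Point)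
    (j : Fin 2) : (Affine.Point.map (W' := E.toAffine) i P).xRep j = i (P.xRep j) := by
  match P with
  | 0 => fin_cases j <;> simp
  | .some x y h =>
    rw [Affine.Point.map_some]
    fin_cases j <;> simp

/-- **Functoriality of the canonical heights.** -/
theorem IsCan.map {E : WeierstrassCurve K} (i : F →ₐ[K] N) {q : (E.baseChange F).toAffine.Point → ℝ}
    {q' : (E.baseChange N).toAffine.Point → ℝ} (h : IsCan (E.baseChange F) q)
    (h' : IsCan (E.baseChange N) q') (P : (E.baseChange F).toAffine.Point) :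
    q' (Affine.Point.map (W' := E.toAffine) i P) =
      ((Module.finrank ℚ N : ℚ) / (Module.finrank ℚ F : ℚ) : ℚ) * q P := by
  let _ : Algebra F N := i.toRingHom.toAlgebra
  have : IsScalarTower ℚ F N := IsScalarTower.of_algebraMap_eq' (Subsingleton.elim _ _)
  have hn : (0 : ℝ) < Module.finrank F N := by
    exact_mod_cast (Module.finrank_pos : 0 < Module.finrank F N)
  have hF : (0 : ℝ) < Module.finrank ℚ F := by
    exact_mod_cast (Module.finrank_pos : 0 < Module.finrank ℚ F)
  have hmul : (Module.finrank ℚ F : ℝ) * Module.finrank F N = Module.finrank ℚ N := by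
    exact_mod_cast Module.finrank_mul_finrank ℚ F N
  have hh : ∀ P : (E.baseChange F).toAffine.Point,
      logHeight (Affine.Point.map (W' := E.toAffine) i P).xRep =
        Module.finrank F N * logHeight P.xRep := by
    intro P
    rw [← Pool.Agent.Helper259.HtExt.logHeight_ext]
    congr 1
    funext j
    exact xRep_map E i P j
  obtain ⟨h1, C, hC⟩ := h'
  have h2 : IsCan (E.baseChange F)
      (fun P => q' (Affine.Point.map (W' := E.toAffine) i P) / Module.finrank F N) := by
    refine ⟨fun P Q => ?_, C / Module.finrank F N, fun P => ?_⟩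
    · have h3 := h1 (Affine.Point.map (W' := E.toAffine) i P)
        (Affine.Point.map (W' := E.toAffine) i Q)
      rw [← map_add, ← map_sub] at h3
      change _ / _ + _ / _ = 2 * (_ / _ + _ / _)
      rw [← add_div, ← add_div, h3]
      ring
    · have h3 := hC (Affine.Point.map (W' := E.toAffine) i P)
      rw [hh] at h3
      rw [le_div_iff₀ hn, ← abs_of_pos hn, ← abs_mul, abs_of_pos hn]
      refine le_trans (le_of_eq ?_) h3
      congr 1
      field_simp
  have h3 := congrFun (h2.unique h) P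
  change _ / _ = _ at h3
  rw [div_eq_iff hn.ne'] at h3
  rw [h3]
  push_cast
  rw [← hmul]
  field_simp

/-- the pairing -/
noncomputable def pr {A : Type} [AddCommGroup A] (q : A → ℝ) (P Q : A) : ℝ := q (P + Q) - q P - q Q

theorem pr_polar {A : Type} [AddCommGroup A] (q : A → ℝ)
    (hq : ∀ P Q, q (P + Q) + q (P - Q) = 2 * (q P + q Q)) :
    ∃ B : A →+ A →+ ℝ, (∀ P, B P P = q P) ∧ (∀ P Q, B P Q = B Q P) ∧
      ∀ P Q, pr q P Q = 2 * B P Q := by
  obtain ⟨B, h1, h2⟩ := polar q hq
  refine ⟨B, h1, h2, fun P Q => ?_⟩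
  have h3 := h1 (P + Q)
  rw [map_add, map_add, AddMonoidHom.add_apply, AddMonoidHom.add_apply, h1, h1, h2 Q P] at h3
  unfold pr
  linarith

end

/-- a nonnegative quadratic form with finitely many bounded values is nondegenerate -/
theorem gram_ne {A κ : Type} [AddCommGroup A] [Fintype κ] {B : A →+ A →+ ℝ}
    (hB : ∀ P Q, B P Q = B Q P) (hfin : ∀ C : ℝ, {P : A | B P P ≤ C}.Finite)
    {P : κ → A} (hP : LinearIndependent ℤ P) :
    (Matrix.of fun l m => B (P l) (P m) : Matrix κ κ ℝ).det ≠ 0 := by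
  intro h0
  obtain ⟨x, hx, hx0⟩ := Matrix.exists_mulVec_eq_zero_iff.2 h0
  obtain ⟨l₀, hl₀⟩ := Function.ne_iff.1 hx
  set G : κ → κ → ℝ := fun l m => B (P l) (P m) with hG
  have hGx : ∀ l, ∑ m, G l m * x m = 0 := fun l => congrFun hx0 l
  have hGx' : ∀ m, ∑ l, x l * G l m = 0 := by
    intro m
    rw [← hGx m]
    refine Finset.sum_congr rfl fun l _ => ?_
    rw [mul_comm]
    congr 1
    exact hB _ _
  let mm : ℕ → κ → ℤ := fun k l => round ((k : ℝ) * x l)
  have hy : ∀ k l, |(mm k l : ℝ) - k * x l| ≤ 1 := by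
    intro k l
    have h1 := abs_sub_round ((k : ℝ) * x l)
    rw [abs_sub_comm] at h1
    exact h1.trans (by norm_num)
  have hval : ∀ c : κ → ℤ, B (∑ l, c l • P l) (∑ l, c l • P l) =
      ∑ l, ∑ m, (c l : ℝ) * G l m * c m := by
    intro c
    have e : ∀ Q, B (∑ l, c l • P l) Q = ∑ l, (c l : ℝ) * B (P l) Q := by
      intro Q
      have h1 : B (∑ l, c l • P l) = ∑ l, c l • B (P l) := by
        rw [map_sum]
        exact Finset.sum_congr rfl fun l _ => map_zsmul _ _ _
      rw [h1, AddMonoidHom.finsetSum_apply]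
      refine Finset.sum_congr rfl fun l _ => ?_
      rw [AddMonoidHom.zsmul_apply, zsmul_eq_mul]
    rw [e]
    refine Finset.sum_congr rfl fun l _ => ?_
    rw [map_sum, Finset.mul_sum]
    refine Finset.sum_congr rfl fun m _ => ?_
    rw [map_zsmul, zsmul_eq_mul]
    ring
  have hred : ∀ (k : ℕ), ∑ l, ∑ m, (mm k l : ℝ) * G l m * mm k m =
      ∑ l, ∑ m, ((mm k l : ℝ) - k * x l) * G l m * ((mm k m : ℝ) - k * x m) := by
    intro k
    have e1 : ∀ l m, ((mm k l : ℝ) - k * x l) * G l m * ((mm k m : ℝ) - k * x m) =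
        (mm k l : ℝ) * G l m * mm k m - (mm k l : ℝ) * k * (G l m * x m) -
          k * (mm k m : ℝ) * (x l * G l m) + k * k * x l * (G l m * x m) := by
      intro l m
      ring
    simp only [e1, Finset.sum_add_distrib, Finset.sum_sub_distrib]
    have e2 : ∑ l, ∑ m, (mm k l : ℝ) * k * (G l m * x m) = 0 :=
      Finset.sum_eq_zero fun l _ => by rw [← Finset.mul_sum, hGx, mul_zero]
    have e3 : ∑ l, ∑ m, (k : ℝ) * (mm k m : ℝ) * (x l * G l m) = 0 := by
      rw [Finset.sum_comm]
      exact Finset.sum_eq_zero fun l _ => by rw [← Finset.mul_sum, hGx', mul_zero]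
    have e4 : ∑ l, ∑ m, (k : ℝ) * k * x l * (G l m * x m) = 0 :=
      Finset.sum_eq_zero fun l _ => by rw [← Finset.mul_sum, hGx, mul_zero]
    rw [e2, e3, e4]
    ring
  have hbd : ∀ k : ℕ, B (∑ l, mm k l • P l) (∑ l, mm k l • P l) ≤ ∑ l, ∑ m, |G l m| := by
    intro k
    rw [hval, hred]
    refine Finset.sum_le_sum fun l _ => Finset.sum_le_sum fun m _ => ?_
    refine (le_abs_self _).trans ?_
    rw [abs_mul, abs_mul]
    have h1 := hy k l
    have h2 := hy k m
    have h3 := abs_nonneg (G l m)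
    calc |(mm k l : ℝ) - k * x l| * |G l m| * |(mm k m : ℝ) - k * x m| ≤ 1 * |G l m| * 1 := by
          gcongr
      _ = |G l m| := by ring
  have hinj : Function.Injective fun c : κ → ℤ => ∑ l, c l • P l := by
    intro c c' hc
    have h1 := (Fintype.linearIndependent_iff.1 hP) (fun l => c l - c' l) (by
      simp only [sub_smul, Finset.sum_sub_distrib]
      exact sub_eq_zero.2 hc)
    funext l
    exact sub_eq_zero.1 (h1 l)
  have hfin2 : (Set.range mm).Finite := by
    refine Set.Finite.subset ((hfin (∑ l, ∑ m, |G l m|)).preimage hinj.injOn) ?_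
    rintro _ ⟨k, rfl⟩
    exact hbd k
  obtain ⟨M, hM⟩ := (hfin2.image fun c : κ → ℤ => |(c l₀ : ℝ)|).bddAbove
  have hM' : ∀ k : ℕ, |(mm k l₀ : ℝ)| ≤ M := fun k => hM ⟨mm k, ⟨k, rfl⟩, rfl⟩
  have hpos : 0 < |x l₀| := abs_pos.2 hl₀
  obtain ⟨k, hk⟩ := exists_nat_gt ((M + 1) / |x l₀|)
  rw [div_lt_iff₀ hpos] at hk
  have h1 := hy k l₀
  have h2 := hM' k
  have h3 : |(k : ℝ) * x l₀| = k * |x l₀| := by rw [abs_mul, Nat.abs_cast]
  have h4 : |(k : ℝ) * x l₀| ≤ |(mm k l₀ : ℝ)| + |(mm k l₀ : ℝ) - k * x l₀| := by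
    have := abs_sub_abs_le_abs_sub ((k : ℝ) * x l₀) (mm k l₀ : ℝ)
    rw [abs_sub_comm ((k : ℝ) * x l₀)] at this
    linarith
  linarith

end Pool.Agent.Q92.LV
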