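import Pool.Agent.Q92.LV.RegA
import Pool.Agent.Q92.LV.Pairing
import Pool.Agent.Q5.RG.Law
import Pool.Agent.Q5.BR.Bsd

/-! The regulators of an elliptic curve over the fields in a relation. -/

set_option autoImplicit false
set_option linter.unusedSectionVars false

namespace Pool.Agent.Q92.LV

open WeierstrassCurve NumberField Pool.Agent.W353.NF Pool.Agent.W401.Cheb Pool.Agent.Q5.BR
  Pool.Agent.Q5.RG
open Pool.Agent.Q5.SO (fq)
open scoped Classical

section
variable {F : Type} [Field F] [NumberField F]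

/-- the Gram determinant of a maximal independent family of points -/
def IsRegE (W : WeierstrassCurve F) (c : ℝ) : Prop :=
  ∃ q : W.toAffine.Point → ℝ, IsCan W q ∧ ∃ P : Fin (rk W) → W.toAffine.Point,
    LinearIndependent ℤ P ∧
      (Matrix.of fun l m => pr q (P l) (P m) : Matrix (Fin (rk W)) (Fin (rk W)) ℝ).det = c

theorem points_finite {W : WeierstrassCurve F} (hΔ : W.Δ ≠ 0) :
    Module.Finite ℤ W.toAffine.Point :=
  Module.Finite.iff_addGroup_fg.2 (Pool.Agent.Q286.EQ.mordell_weil F W hΔ)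

theorem exists_regE {W : WeierstrassCurve F} (hΔ : W.Δ ≠ 0) : ∃ c, IsRegE W c := by
  obtain ⟨q, hq⟩ := exists_can W hΔ
  have := points_finite hΔ
  obtain ⟨P, hP⟩ := exists_linearIndependent_of_le_finrank (R := ℤ) (M := W.toAffine.Point)
    (n := rk W) le_rfl
  exact ⟨_, q, hq, P, hP, rfl⟩

theorem det_smul' {κ : Type} [Fintype κ] {A : Type} [AddCommGroup A] {q : A → ℝ}
    {B : A →+ A →+ ℝ} {c : ℝ} (h : ∀ P Q, pr q P Q = c * B P Q) (P : κ → A) :
    (Matrix.of fun l m => pr q (P l) (P m) : Matrix κ κ ℝ).det =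
      c ^ Fintype.card κ * (Matrix.of fun l m => B (P l) (P m) : Matrix κ κ ℝ).det := by
  have h1 : (Matrix.of fun l m => pr q (P l) (P m) : Matrix κ κ ℝ) =
      c • (Matrix.of fun l m => B (P l) (P m) : Matrix κ κ ℝ) := by
    ext l m
    rw [Matrix.smul_apply, Matrix.of_apply, Matrix.of_apply, h, smul_eq_mul]
  rw [h1, Matrix.det_smul]

theorem IsRegE.ne {W : WeierstrassCurve F} {c : ℝ} (h : IsRegE W c) : c ≠ 0 := by
  obtain ⟨q, hq, P, hP, rfl⟩ := h
  obtain ⟨B, h1, h2, h3⟩ := pr_polar q hq.1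
  have h4 := gram_ne h2 (fun C => by
    simp only [h1]
    exact hq.finite C) hP
  have h5 := det_smul' (q := q) (B := B) (c := 2) h3 P
  have h9 : ∀ (i₁ i₂ : DecidableEq (Fin (rk W))) (L : Matrix (Fin (rk W)) (Fin (rk W)) ℝ),
      @Matrix.det _ i₁ _ ℝ _ L = @Matrix.det _ i₂ _ ℝ _ L := fun i₁ i₂ L => by
    rw [Subsingleton.elim i₁ i₂]
  rw [h9 _ (fun a b => Classical.propDecidable (a = b)), h5]
  exact mul_ne_zero (by positivity) h4

end

section
variable {K : Type} [Field K] [NumberField K]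

theorem pr_map {A A' : Type} [AddCommGroup A] [AddCommGroup A'] {q : A → ℝ} {q' : A' → ℝ}
    {f : A →+ A'} {c : ℝ} (h : ∀ P, q' (f P) = c * q P) (P Q : A) :
    pr q' (f P) (f Q) = c * pr q P Q := by
  unfold pr
  rw [← map_add, h, h, h]
  ring

/-- the fixed cosets of the stabiliser of an embedding -/
theorem fq_fixing (N : IntermediateField K (AlgebraicClosure K)) [FiniteDimensional K N]
    [hN : Normal K N] {F : Type} [Field F] [NumberField F] [Algebra K F] (i : F →ₐ[K] N)
    (σ : GK K) : fq i.fieldRange.fixingSubgroup (AlgEquiv.restrictNormal σ N : N ≃ₐ[K] N) =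
      (fixn K F σ : ℤ) := by
  have hgal : IsGalois K N := {}
  rw [← Pool.Agent.Q5.SO.fixn_fq N i.fieldRange.fixingSubgroup σ]
  congr 1
  have h1 : IntermediateField.fixedField i.fieldRange.fixingSubgroup = i.fieldRange :=
    IsGalois.fixedField_fixingSubgroup i.fieldRange
  rw [h1]
  exact Pool.Agent.Q5.HR.fixn_congr (AlgEquiv.ofInjectiveField i).symm σ

variable {ι : Type} [Fintype ι]

/-- the relation over a Galois extension -/
theorem regE_aux {X : ι → Ext K} {n : ι → ℤ} (N : Type) [Field N] [NumberField N] [Algebra K N]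
    [IsGalois K N] (i : ∀ j, (X j).F →ₐ[K] N)
    (h : ∀ g : N ≃ₐ[K] N, ∑ j, n j * fq (i j).fieldRange.fixingSubgroup g = 0)
    {E : WeierstrassCurve K}
    (hE : E.IsElliptic) {c : ι → ℝ} (hc : ∀ j, IsRegE (E.map (algebraMap K (X j).F)) (c j)) :
    ∃ q : ℚ, q ≠ 0 ∧ ∏ j, (c j) ^ (n j) = (q : ℝ) := by
  have hΔN : (E.baseChange N).Δ ≠ 0 := by
    change (E.map (algebraMap K N)).Δ ≠ 0
    rw [WeierstrassCurve.map_Δ]
    intro h0
    exact E.isUnit_Δ.ne_zero ((map_eq_zero_iff _ (algebraMap K N).injective).1 h0)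
  have hΔj : ∀ j, (E.map (algebraMap K (X j).F)).Δ ≠ 0 := by
    intro j
    rw [WeierstrassCurve.map_Δ]
    intro h0
    exact E.isUnit_Δ.ne_zero ((map_eq_zero_iff _ (algebraMap K (X j).F).injective).1 h0)
  obtain ⟨q', hq'⟩ := exists_can (E.baseChange N) hΔN
  obtain ⟨B, hB1, hB2, hB3⟩ := pr_polar q' hq'.1
  have hfinN : Module.Finite ℤ (E.baseChange N).toAffine.Point := points_finite hΔN
  choose q hq P hP hdet using hc
  -- the heights
  have hinv : ∀ (g : N ≃ₐ[K] N) x y, B (rep E N g x) (rep E N g y) = B x y := by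
    intro g x y
    have h1 : ∀ P, q' (Affine.Point.map (W' := E.toAffine) (g : N →ₐ[K] N) P) = 1 * q' P := by
      intro P
      have h2 := hq'.map (E := E) (g : N →ₐ[K] N) hq' P
      have h3 : (Module.finrank ℚ N : ℚ) ≠ 0 := by
        exact_mod_cast (Module.finrank_pos (R := ℚ) (M := N)).ne'
      rw [div_self h3, Rat.cast_one] at h2
      exact h2
    have h2 := pr_map (q := q') (q' := q')
      (f := Affine.Point.map (W' := E.toAffine) (g : N →ₐ[K] N)) h1 x y
    rw [hB3, hB3] at h2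
    have h3 : B (Affine.Point.map (W' := E.toAffine) (g : N →ₐ[K] N) x)
      (Affine.Point.map (W' := E.toAffine) (g : N →ₐ[K] N) y) = B x y := by linarith
    exact h3
  let d : ι → ℚ := fun j => (Module.finrank ℚ N : ℚ) / (Module.finrank ℚ (X j).F : ℚ)
  have hd : ∀ j, d j ≠ 0 := by
    intro j
    have h3 : (Module.finrank ℚ N : ℚ) ≠ 0 := by
      exact_mod_cast (Module.finrank_pos (R := ℚ) (M := N)).ne'
    have h4 : (Module.finrank ℚ (X j).F : ℚ) ≠ 0 := by
      exact_mod_cast (Module.finrank_pos (R := ℚ) (M := (X j).F)).ne'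
    exact div_ne_zero h3 h4
  let f : ∀ j, (E.map (algebraMap K (X j).F)).toAffine.Point →+ (E.baseChange N).toAffine.Point :=
    fun j => Affine.Point.map (W' := E.toAffine) (i j)
  have hqf : ∀ j P, q' (f j P) = ((d j : ℚ) : ℝ) * q j P := fun j P =>
    (hq j).map (E := E) (i j) hq' P
  have hinj : ∀ j, Function.Injective (f j) := fun j =>
    Affine.Point.map_injective (W' := E.toAffine) (i j)
  have hgf : ∀ j P, ∀ g ∈ (i j).fieldRange.fixingSubgroup, rep E N g (f j P) = f j P := by
    intro j P g hg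
    have h1 : Affine.Point.map (W' := E.toAffine) (g : N →ₐ[K] N)
        (Affine.Point.map (W' := E.toAffine) (i j) (show (E.baseChange (X j).F).toAffine.Point from P)) =
          Affine.Point.map (W' := E.toAffine) (i j)
            (show (E.baseChange (X j).F).toAffine.Point from P) := by
      rw [Affine.Point.map_map, mem_fixing.1 hg]
    exact h1
  have hran : ∀ j x, (∀ g ∈ (i j).fieldRange.fixingSubgroup, rep E N g x = x) → ∃ Q, f j Q = x := by
    intro j x hx
    have h1 : x ∈ (repR E (i j).fieldRange.fixingSubgroup).invariants := fun g => hx g.1 g.2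
    rw [invariants_eq E (i j)] at h1
    obtain ⟨Q, hQ⟩ := h1
    exact ⟨Q, hQ⟩
  clear_value f
  have hqj : ∀ j P Q, B (f j P) (f j Q) = ((d j : ℝ) / 2) * pr (q j) P Q := by
    intro j P Q
    have h1 := pr_map (q := q j) (q' := q') (f := f j) (hqf j) P Q
    rw [hB3] at h1
    linarith
  let a : ∀ j, Fin (rk (E.map (algebraMap K (X j).F))) → (E.baseChange N).toAffine.Point :=
    fun j l => f j (P j l)
  have hmain := lattice_rel (G := N ≃ₐ[K] N) (A := (E.baseChange N).toAffine.Point) (rep E N)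
    (B := B) hinv (fun κ _ P hP => gram_ne hB2 (fun C => by
      simp only [hB1]
      exact hq'.finite C) hP) (fun j => (i j).fieldRange.fixingSubgroup) n h
    (fun j => rk (E.map (algebraMap K (X j).F))) a (fun j l g hg => hgf j _ g hg) (by
      intro j
      exact (hP j).map' (f j).toIntLinearMap (LinearMap.ker_eq_bot.2 (hinj j))) (by
      intro j x hx
      obtain ⟨Q, rfl⟩ := hran j x hx
      have := points_finite (hΔj j)
      obtain ⟨m, hm, hmQ⟩ := exists_multiple (hP j) rfl Q
      refine ⟨m, hm, ?_⟩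
      have h2 := Submodule.mem_map_of_mem (f := (f j).toIntLinearMap) hmQ
      rw [Submodule.map_span, ← Set.range_comp, map_smul] at h2
      exact h2)
  obtain ⟨t, ht, hprod⟩ := hmain
  have hdet' : ∀ j, (Matrix.of fun l m => B (a j l) (a j m) :
      Matrix (Fin (rk (E.map (algebraMap K (X j).F)))) (Fin (rk (E.map (algebraMap K (X j).F))))
        ℝ).det = ((((d j) / 2) ^ (rk (E.map (algebraMap K (X j).F))) : ℚ) : ℝ) * c j := by
    intro j
    have h1 : (Matrix.of fun l m => B (a j l) (a j m) :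
      Matrix (Fin (rk (E.map (algebraMap K (X j).F)))) (Fin (rk (E.map (algebraMap K (X j).F))))
        ℝ) = ((d j : ℝ) / 2) • (Matrix.of fun l m => pr (q j) (P j l) (P j m)) := by
      ext l m
      rw [Matrix.smul_apply, Matrix.of_apply, Matrix.of_apply, smul_eq_mul]
      exact hqj j _ _
    rw [h1, Matrix.det_smul, hdet j, Fintype.card_fin]
    push_cast
    rfl
  refine ⟨t / ∏ j, (((d j) / 2) ^ (rk (E.map (algebraMap K (X j).F)))) ^ (n j), ?_, ?_⟩
  · refine div_ne_zero ht (Finset.prod_ne_zero_iff.2 fun j _ => zpow_ne_zero _ (pow_ne_zero _ ?_))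
    exact div_ne_zero (hd j) two_ne_zero
  · have h1 : ∏ j, (((d j) / 2) ^ (rk (E.map (algebraMap K (X j).F)))) ^ (n j) ≠ 0 :=
      Finset.prod_ne_zero_iff.2 fun j _ => zpow_ne_zero _ (pow_ne_zero _
        (div_ne_zero (hd j) two_ne_zero))
    have h2 : ((∏ j, (((d j) / 2) ^ (rk (E.map (algebraMap K (X j).F)))) ^ (n j) : ℚ) : ℝ) ≠ 0 := by
      exact_mod_cast h1
    rw [Rat.cast_div, eq_div_iff h2, ← hprod, Rat.cast_prod, ← Finset.prod_mul_distrib]
    refine Finset.prod_congr rfl fun j _ => ?_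
    rw [hdet' j, mul_zpow, mul_comm]
    congr 1
    push_cast
    rfl

/-- **The regulators in a relation.** -/
theorem regE_relation {X : ι → Ext K} {n : ι → ℤ}
    (h : ∀ σ : GK K, ∑ j, n j * (fixn K (X j).F σ : ℤ) = 0) {E : WeierstrassCurve K}
    (hE : E.IsElliptic) {c : ι → ℝ} (hc : ∀ j, IsRegE (E.map (algebraMap K (X j).F)) (c j)) :
    ∃ q : ℚ, q ≠ 0 ∧ ∏ j, (c j) ^ (n j) = (q : ℝ) := by
  obtain ⟨N, hfd, hnor, hle⟩ := exists_N X
  have hnf : NumberField N := NumberField.of_module_finite K N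
  have hgal : IsGalois K N := {}
  let i : ∀ j, (X j).F →ₐ[K] N := fun j => (embEquiv (X j).F N (hle j)).symm IsAlgClosed.lift
  refine regE_aux N i (fun g => ?_) hE hc
  obtain ⟨σ, rfl⟩ := AlgEquiv.restrictNormalHom_surjective (AlgebraicClosure K) (K₁ := N) g
  rw [← h σ]
  exact Finset.sum_congr rfl fun j _ => by
    rw [← fq_fixing N (i j) σ]
    rfl

theorem IsRegE.quot {W : WeierstrassCurve K} (hW : W.IsElliptic) {c c' : ℝ} (h : IsRegE W c)
    (h' : IsRegE W c') : ∃ q : ℚ, q ≠ 0 ∧ c = q * c' := by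
  have hid : W.map (algebraMap K K) = W := by
    rw [Algebra.algebraMap_self, WeierstrassCurve.map_id]
  obtain ⟨q, hq, h1⟩ := regE_relation (X := fun _ : Bool => Ext.mk K)
    (n := fun b => if b then 1 else -1) (by
      intro σ
      simp) hW (c := fun b => if b then c else c') (by
      rintro (_ | _)
      · change IsRegE (W.map (algebraMap K K)) c'
        rw [hid]
        exact h'
      · change IsRegE (W.map (algebraMap K K)) c
        rw [hid]
        exact h)
  refine ⟨q, hq, ?_⟩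
  simp only [Fintype.prod_bool, if_true, Bool.false_eq_true, if_false, zpow_one, zpow_neg] at h1
  have h2 := h'.ne
  rw [← h1, mul_assoc, inv_mul_cancel₀ h2, mul_one]

end

end Pool.Agent.Q92.LV
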