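import Pool.Agent.Q92.LV.Per
import Pool.Agent.Q92.LV.RegE

/-! The leading coefficients at `s = 1` in a relation. -/

set_option autoImplicit false
set_option linter.unusedSectionVars false

namespace Pool.Agent.Q92.LV

open NumberField IsDedekindDomain Filter Pool.Agent.W353.NF Pool.Agent.W401.Cheb
  Pool.Agent.Q5.BR Pool.Agent.Q92.FE Pool.Agent.H341R2 Pool.Agent.H341R2.EC
  Pool.Agent.H921R2.TatePole Topology
open Pool.Agent.TH322.BC.Edge (MinimalModels)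
open scoped Classical

open Pool.Agent.TH322.BC.Edge renaming LSeries → LS

/-- domains -/
def IsDomD (D : Set ℂ) : Prop := (1 : ℂ) ∈ D

section
variable {F : Type} [Field F] [NumberField F]

/-- `L^t` has a continuation of order `t r`, with leading coefficient in `ℚ^× c^t` -/
def LT (D : Set ℂ) (V : HeightOneSpectrum (𝓞 F) → WeierstrassCurve (𝓞 F)) (t r : ℤ) (c : ℝ) :
    Prop :=
  ∃ f : ℂ → ℂ, MeromorphicOn f D ∧ (∀ s : ℂ, 3 / 2 < s.re → f s = (LS V s) ^ t) ∧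
    meromorphicOrderAt f 1 = ((t * r : ℤ) : WithTop ℤ) ∧
    Sim (meromorphicTrailingCoeffAt f 1) ((c : ℂ) ^ t)

/-- the same for all minimal models -/
def AllLT (D : Set ℂ) (E : WeierstrassCurve F) (t r : ℤ) (c : ℝ) : Prop :=
  ∀ V : HeightOneSpectrum (𝓞 F) → WeierstrassCurve (𝓞 F), MinimalModels E V → LT D V t r c

theorem LT.zero {D : Set ℂ} (V : HeightOneSpectrum (𝓞 F) → WeierstrassCurve (𝓞 F)) (r : ℤ)
    (c : ℝ) : LT D V 0 r c := by
  refine ⟨fun _ => 1, fun _ _ => MeromorphicAt.const _ _, fun _ _ => (zpow_zero _).symm, ?_, ?_⟩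
  · rw [meromorphicOrderAt_const, if_neg one_ne_zero, zero_mul]
    rfl
  · rw [meromorphicTrailingCoeffAt_const, zpow_zero]
    exact Sim.refl _

theorem LT.add {D : Set ℂ} (hD : (1 : ℂ) ∈ D) {E : WeierstrassCurve F} (hE : E.IsElliptic)
    {V : HeightOneSpectrum (𝓞 F) → WeierstrassCurve (𝓞 F)} (hV : MinimalModels E V)
    {t t' r : ℤ} {c : ℝ} (hc : c ≠ 0) (h : LT D V t r c) (h' : LT D V t' r c) :
    LT D V (t + t') r c := by
  obtain ⟨f, h1, h2, h3, h4⟩ := h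
  obtain ⟨g, k1, k2, k3, k4⟩ := h'
  refine ⟨fun s => f s * g s, fun s hs => (h1 s hs).fun_mul (k1 s hs), fun s hs => ?_, ?_, ?_⟩
  · change f s * g s = _
    rw [h2 s hs, k2 s hs, zpow_add₀ (LSeries_ne_zero hE hV hs)]
  · rw [fun_meromorphicOrderAt_mul (h1 1 hD) (k1 1 hD), h3, k3, add_mul]
    rfl
  · rw [(h1 1 hD).meromorphicTrailingCoeffAt_fun_mul (k1 1 hD), zpow_add₀ (by exact_mod_cast hc)]
    exact h4.mul k4

theorem LT.neg {D : Set ℂ} (hD : (1 : ℂ) ∈ D)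
    {V : HeightOneSpectrum (𝓞 F) → WeierstrassCurve (𝓞 F)} {t r : ℤ} {c : ℝ}
    (h : LT D V t r c) : LT D V (-t) r c := by
  obtain ⟨f, h1, h2, h3, h4⟩ := h
  refine ⟨fun s => (f s) ^ (-1 : ℤ), fun s hs => (h1 s hs).fun_zpow _, fun s hs => ?_, ?_, ?_⟩
  · change (f s) ^ (-1 : ℤ) = _
    rw [h2 s hs, ← zpow_mul, mul_neg_one]
  · rw [fun_meromorphicOrderAt_zpow (h1 1 hD), h3]
    have e : (-t * r : ℤ) = (-1) * (t * r) := by ring
    rw [e]
    rfl
  · rw [(h1 1 hD).meromorphicTrailingCoeffAt_fun_zpow]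
    have h5 := h4.zpow (-1)
    rwa [← zpow_mul, mul_neg_one] at h5

/-- the Euler factors at `s = 1` are rational -/
theorem fac_rat (V : HeightOneSpectrum (𝓞 F) → WeierstrassCurve (𝓞 F))
    (w : HeightOneSpectrum (𝓞 F)) : Sim ((1 - zz V w 1)⁻¹) (1 : ℂ) := by
  have hne := fac_one_ne V w
  have h1 : ((nm w : ℕ) : ℂ) ^ (-(1 : ℂ)) = (nm w : ℂ)⁻¹ := by
    rw [Complex.cpow_neg, Complex.cpow_one]
  have h2 : ((nm w : ℕ) : ℂ) ^ (1 - 2 * (1 : ℂ)) = (nm w : ℂ)⁻¹ := by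
    rw [← h1]
    norm_num
  obtain ⟨q, hq⟩ : ∃ q : ℚ, 1 - zz V w 1 = q := by
    unfold zz
    rw [h1, h2]
    split_ifs
    · exact ⟨1 - ((((nm w : ℤ) - (aff (red w (V w)) : ℤ) : ℤ) : ℚ) * ((nm w : ℕ) : ℚ)⁻¹ -
        0 * ((nm w : ℕ) : ℚ)⁻¹), by push_cast; ring⟩
    · exact ⟨1 - ((((nm w : ℤ) - (aff (red w (V w)) : ℤ) : ℤ) : ℚ) * ((nm w : ℕ) : ℚ)⁻¹ -
        1 * ((nm w : ℕ) : ℚ)⁻¹), by push_cast; ring⟩
  rw [hq] at hne ⊢
  refine ⟨q⁻¹, inv_ne_zero (by exact_mod_cast hne), ?_⟩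
  rw [mul_one, Rat.cast_inv]

end

section
variable {K : Type} [Field K] [NumberField K] {ι : Type} [Fintype ι]

theorem Sim.one_prod {κ : Type} (s : Finset κ) {x : κ → ℂ} (h : ∀ j ∈ s, Sim (x j) 1) :
    Sim (∏ j ∈ s, x j) (1 : ℂ) := by
  have h1 := Sim.prod s (y := fun _ => (1 : ℂ)) h
  rwa [Finset.prod_const_one] at h1

theorem Sim.one_zpow {x : ℂ} (h : Sim x 1) (n : ℤ) : Sim (x ^ n) (1 : ℂ) := by
  have h1 := h.zpow n
  rwa [_root_.one_zpow] at h1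

theorem Rfun_rat {X : ι → Ext K} (n : ι → ℤ) (m : ℤ)
    (V₀ : HeightOneSpectrum (𝓞 K) → WeierstrassCurve (𝓞 K))
    (V : ∀ j, HeightOneSpectrum (𝓞 (X j).F) → WeierstrassCurve (𝓞 (X j).F))
    (S : Finset (HeightOneSpectrum (𝓞 K))) : Sim (Rfun n m V₀ V S 1) (1 : ℂ) := by
  unfold Rfun
  refine Sim.one_prod _ fun v _ => ?_
  have h1 : Sim ((∏ w ∈ above K v, (1 - zz V₀ w 1)⁻¹) ^ m) (1 : ℂ) :=
    (Sim.one_prod _ fun w _ => fac_rat _ _).one_zpow m
  have h2 : Sim (∏ j, (∏ w ∈ above (X j).F v, (1 - zz (V j) w 1)⁻¹) ^ (-n j)) (1 : ℂ) :=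
    Sim.one_prod _ fun j _ => (Sim.one_prod _ fun w _ => fac_rat _ _).one_zpow _
  have h3 := h1.mul h2
  rwa [mul_one] at h3

/-- **One step.** -/
theorem lt_step {D : Set ℂ} (hD : (1 : ℂ) ∈ D) {X : ι → Ext K} {n : ι → ℤ} {m : ℤ}
    (hrel : ∀ σ : GK K, ∑ j, n j * (fixn K (X j).F σ : ℤ) = m) {E : WeierstrassCurve K}
    (hE : E.IsElliptic) {r₀ : ℤ} {r : ι → ℤ} (hr : ∑ j, n j * r j = m * r₀) {c₀ : ℝ} {c : ι → ℝ}
    (hc : Sim (∏ j, (c j) ^ (n j)) (c₀ ^ m)) (t : ℤ)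
    (h : ∀ j, AllLT D (E.map (algebraMap K (X j).F)) t (r j) (c j)) :
    AllLT D E (m * t) r₀ c₀ := by
  intro V₀ hV₀
  have hEj : ∀ j, (E.map (algebraMap K (X j).F)).IsElliptic := fun j => inferInstance
  choose V hV using fun j => exists_minimalModels (E.map (algebraMap K (X j).F)) (hEj j)
  obtain ⟨S, hS⟩ := LS_pow (m := m) hrel hE hV₀ hV
  choose f hf hf' hf'' hf3 using fun j => h j (V j) (hV j)
  have hR := Rfun_meromorphic n m V₀ V S
  have hR1 : MeromorphicAt (Rfun n m V₀ V S) 1 := hR 1 (Set.mem_univ _)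
  have hm : ∀ j, MeromorphicAt (f j) 1 := fun j => hf j 1 hD
  refine ⟨fun s => (Rfun n m V₀ V S s) ^ t * ∏ j, (f j s) ^ (n j),
    fun s hs => ?_, fun s hs => ?_, ?_, ?_⟩
  · refine MeromorphicAt.fun_mul ?_ (MeromorphicAt.fun_prod fun j _ => ?_)
    · exact MeromorphicAt.fun_zpow (hR s (Set.mem_univ s)) t
    · exact MeromorphicAt.fun_zpow (hf j s hs) (n j)
  · rw [zpow_mul, hS s hs, mul_zpow]
    change _ * (∏ j, (f j s) ^ (n j)) = _
    congr 1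
    rw [← Finset.prod_zpow]
    refine Finset.prod_congr rfl fun j _ => ?_
    rw [hf' j s hs, ← zpow_mul, ← zpow_mul, mul_comm]
  · rw [fun_meromorphicOrderAt_mul (hR1.fun_zpow t)
      (MeromorphicAt.fun_prod fun j _ => (hm j).fun_zpow (n j)), fun_meromorphicOrderAt_zpow hR1,
      Rfun_order, mul_zero, zero_add]
    have h4 : meromorphicOrderAt (fun s => ∏ j, (f j s) ^ (n j)) 1 =
        ∑ j, meromorphicOrderAt (fun s => (f j s) ^ (n j)) 1 := by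
      rw [← meromorphicOrderAt_prod fun j _ => (hm j).fun_zpow (n j)]
      congr 1
      ext s
      rw [Finset.prod_apply]
    rw [h4]
    have h5 : ∀ j, meromorphicOrderAt (fun s => (f j s) ^ (n j)) 1 =
        ((n j * (t * r j) : ℤ) : WithTop ℤ) := by
      intro j
      rw [fun_meromorphicOrderAt_zpow (hm j), hf'' j]
      rfl
    rw [Finset.sum_congr rfl fun j _ => h5 j, ← WithTop.coe_sum]
    congr 1
    have h6 : m * t * r₀ = t * (m * r₀) := by ring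
    rw [h6, ← hr, Finset.mul_sum]
    exact Finset.sum_congr rfl fun j _ => by ring
  · rw [MeromorphicAt.meromorphicTrailingCoeffAt_fun_mul (hR1.fun_zpow t)
      (MeromorphicAt.fun_prod fun j _ => (hm j).fun_zpow _),
      hR1.meromorphicTrailingCoeffAt_fun_zpow,
      AnalyticAt.meromorphicTrailingCoeffAt_of_ne_zero (Rfun_analytic n m V₀ V S)
        (Rfun_one_ne n m V₀ V S),
      meromorphicTrailingCoeffAt_fun_prod (fun j _ => (hm j).fun_zpow _),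
      Finset.prod_congr rfl fun j _ => (hm j).meromorphicTrailingCoeffAt_fun_zpow (n := n j)]
    have h1 : Sim (∏ j, (meromorphicTrailingCoeffAt (f j) 1) ^ (n j))
        (∏ j, (((c j : ℝ) : ℂ) ^ t) ^ (n j)) := Sim.prod _ fun j _ => (hf3 j).zpow _
    have h2 : Sim (∏ j, (((c j : ℝ) : ℂ) ^ t) ^ (n j)) (((c₀ : ℝ) : ℂ) ^ (m * t)) := by
      have h3 : ∏ j, (((c j : ℝ) : ℂ) ^ t) ^ (n j) = (((∏ j, (c j) ^ (n j)) : ℝ) : ℂ) ^ t := by
        push_cast
        rw [← Finset.prod_zpow]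
        refine Finset.prod_congr rfl fun j _ => ?_
        rw [← zpow_mul, ← zpow_mul, mul_comm]
      have h4 : Sim (((∏ j, (c j) ^ (n j)) : ℝ) : ℂ) (((c₀ ^ m : ℝ)) : ℂ) := by
        obtain ⟨q, hq, h5⟩ := hc
        refine ⟨q, hq, ?_⟩
        rw [h5]
        push_cast
        rfl
      rw [h3, zpow_mul]
      have h6 := h4.zpow t
      push_cast at h6
      push_cast
      exact h6
    have h3 := ((Rfun_rat n m V₀ V S).one_zpow t).mul (h1.trans h2)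
    rwa [one_mul] at h3

end

end Pool.Agent.Q92.LV
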