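import Pool.Agent.Q92.LV.Places

/-! The periods of an elliptic curve over the fields in a relation. -/

set_option autoImplicit false
set_option linter.unusedSectionVars false

namespace Pool.Agent.Q92.LV

open NumberField Pool.Agent.W353.NF Pool.Agent.W401.Cheb Pool.Agent.Q5.BR Pool.Agent.Q92.FE
  ComplexConjugate
open scoped Classical

/-- equality up to a nonzero rational factor -/
def Sim {R : Type} [Field R] (x y : R) : Prop := ∃ q : ℚ, q ≠ 0 ∧ x = q * y

section
variable {R : Type} [Field R] [CharZero R]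

theorem Sim.refl (x : R) : Sim x x := ⟨1, one_ne_zero, by rw [Rat.cast_one, one_mul]⟩

theorem Sim.of_eq {x y : R} (h : x = y) : Sim x y := h ▸ Sim.refl x

theorem Sim.symm {x y : R} (h : Sim x y) : Sim y x := by
  obtain ⟨q, hq, rfl⟩ := h
  refine ⟨q⁻¹, inv_ne_zero hq, ?_⟩
  have hq' : (q : R) ≠ 0 := by exact_mod_cast hq
  rw [Rat.cast_inv, ← mul_assoc, inv_mul_cancel₀ hq', one_mul]

theorem Sim.trans {x y z : R} (h : Sim x y) (h' : Sim y z) : Sim x z := by
  obtain ⟨q, hq, rfl⟩ := h
  obtain ⟨r, hr, rfl⟩ := h'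
  exact ⟨q * r, mul_ne_zero hq hr, by rw [Rat.cast_mul, mul_assoc]⟩

theorem Sim.mul {x y x' y' : R} (h : Sim x y) (h' : Sim x' y') : Sim (x * x') (y * y') := by
  obtain ⟨q, hq, rfl⟩ := h
  obtain ⟨r, hr, rfl⟩ := h'
  refine ⟨q * r, mul_ne_zero hq hr, ?_⟩
  rw [Rat.cast_mul]
  ring

theorem Sim.zpow {x y : R} (h : Sim x y) (n : ℤ) : Sim (x ^ n) (y ^ n) := by
  obtain ⟨q, hq, rfl⟩ := h
  exact ⟨q ^ n, zpow_ne_zero _ hq, by rw [mul_zpow, Rat.cast_zpow]⟩

theorem Sim.prod {ι : Type} (s : Finset ι) {x y : ι → R} (h : ∀ j ∈ s, Sim (x j) (y j)) :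
    Sim (∏ j ∈ s, x j) (∏ j ∈ s, y j) := by
  induction s using Finset.induction_on with
  | empty => simpa using Sim.refl (1 : R)
  | insert a s ha ih =>
    rw [Finset.prod_insert ha, Finset.prod_insert ha]
    exact (h a (Finset.mem_insert_self a s)).mul
      (ih fun j hj => h j (Finset.mem_insert_of_mem hj))

theorem Sim.ne {x y : R} (h : Sim x y) (hx : x ≠ 0) : y ≠ 0 := by
  rintro rfl
  obtain ⟨q, -, rfl⟩ := h
  exact hx (mul_zero _)

end

section
variable {K : Type} [Field K] [NumberField K]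

/-- products over the infinite places -/
theorem prod_places {F : Type} [Field F] [NumberField F] [Algebra K F]
    {f : InfinitePlace F → ℝ} {a b : InfinitePlace K → ℝ}
    (ha : ∀ v : InfinitePlace F, v.IsReal → Sim (f v) (a (v.comap (algebraMap K F))))
    (hb : ∀ v : InfinitePlace F, v.IsComplex → Sim (f v) (b (v.comap (algebraMap K F)))) :
    Sim (∏ v, f v) (∏ u, (a u ^ (rr F u : ℤ) * b u ^ (cc F u : ℤ))) := by
  rw [← Finset.prod_fiberwise (s := (Finset.univ : Finset (InfinitePlace F)))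
    (g := fun v => v.comap (algebraMap K F)) (f := f)]
  refine Sim.prod _ fun u _ => ?_
  rw [← Finset.prod_filter_mul_prod_filter_not _ (fun v : InfinitePlace F => v.IsReal)]
  refine Sim.mul ?_ ?_
  · rw [Finset.filter_filter, zpow_natCast]
    unfold rr
    rw [← Finset.prod_const]
    refine Sim.prod _ fun v hv => ?_
    rw [Finset.mem_filter] at hv
    have h1 := ha v hv.2.2
    rwa [hv.2.1] at h1
  · rw [Finset.filter_filter, zpow_natCast]
    unfold cc
    rw [← Finset.prod_const]
    have h2 : (Finset.univ.filter fun v : InfinitePlace F => v.comap (algebraMap K F) = u ∧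
        ¬ v.IsReal) = Finset.univ.filter fun v : InfinitePlace F =>
          v.comap (algebraMap K F) = u ∧ v.IsComplex := by
      ext v
      rw [Finset.mem_filter, Finset.mem_filter, InfinitePlace.not_isReal_iff_isComplex]
    rw [h2]
    refine Sim.prod _ fun v hv => ?_
    rw [Finset.mem_filter] at hv
    have h1 := hb v hv.2.2
    rwa [hv.2.1] at h1

/-- the products over the infinite places in a relation -/
theorem prod_places_rel {ι : Type} [Fintype ι] {X : ι → Ext K} {n : ι → ℤ} (h : Rel X n)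
    {f : ∀ j, InfinitePlace (X j).F → ℝ} {a b : InfinitePlace K → ℝ} (ha0 : ∀ u, a u ≠ 0)
    (hb0 : ∀ u, b u ≠ 0)
    (ha : ∀ j, ∀ v : InfinitePlace (X j).F, v.IsReal →
      Sim (f j v) (a (v.comap (algebraMap K (X j).F))))
    (hb : ∀ j, ∀ v : InfinitePlace (X j).F, v.IsComplex →
      Sim (f j v) (b (v.comap (algebraMap K (X j).F)))) :
    Sim (∏ j, (∏ v, f j v) ^ (n j)) 1 := by
  have h1 : Sim (∏ j, (∏ v, f j v) ^ (n j))
      (∏ j, (∏ u, (a u ^ (rr (X j).F u : ℤ) * b u ^ (cc (X j).F u : ℤ))) ^ (n j)) :=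
    Sim.prod _ fun j _ => (prod_places (ha j) (hb j)).zpow (n j)
  refine h1.trans (Sim.of_eq ?_)
  have hz : ∀ {x : ℝ}, x ≠ 0 → ∀ k : ι → ℤ, ∏ j, x ^ (k j) = x ^ (∑ j, k j) := by
    intro x hx k
    have h2 : ∀ s : Finset ι, ∏ j ∈ s, x ^ (k j) = x ^ (∑ j ∈ s, k j) := by
      intro s
      induction s using Finset.induction_on with
      | empty => simp
      | insert b s hb ih => rw [Finset.prod_insert hb, Finset.sum_insert hb, ih, zpow_add₀ hx]
    exact h2 _
  simp only [← Finset.prod_zpow, mul_zpow, ← zpow_mul]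
  rw [Finset.prod_comm]
  refine Finset.prod_eq_one fun u _ => ?_
  rw [Finset.prod_mul_distrib, hz (ha0 u), hz (hb0 u)]
  have h3 : ∑ j, (rr (X j).F u : ℤ) * n j = 0 := by
    rw [← rr_rel h u]
    exact Finset.sum_congr rfl fun j _ => mul_comm _ _
  have h4 : ∑ j, (cc (X j).F u : ℤ) * n j = 0 := by
    rw [← cc_rel h u]
    exact Finset.sum_congr rfl fun j _ => mul_comm _ _
  rw [h3, h4, zpow_zero, zpow_zero, mul_one]

/-- Period lattices of an elliptic curve over a number field, and real periods. -/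
structure Periods (E : WeierstrassCurve K) where
  /-- a basis of the period lattice of the differential `dx / (2 y + a₁ x + a₃)` at an embedding -/
  pair : (K →+* ℂ) → PeriodPair
  g₂_eq : ∀ ν, (pair ν).g₂ = ν E.c₄ / 12
  g₃_eq : ∀ ν, (pair ν).g₃ = ν E.c₆ / 216
  conj_mem : ∀ ν, ∀ x ∈ (pair ν).lattice,
    conj x ∈ (pair (ComplexEmbedding.conjugate ν)).lattice
  /-- a real period at a real embedding -/
  re : (K →+* ℂ) → ℝ
  re_ne : ∀ ν, ComplexEmbedding.IsReal ν → re ν ≠ 0
  re_mem : ∀ ν, ComplexEmbedding.IsReal ν → ((re ν : ℝ) : ℂ) ∈ (pair ν).lattice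

/-- the periods over an extension field -/
noncomputable def Periods.up {E : WeierstrassCurve K} (p : Periods E) (F : Type) [Field F]
    [NumberField F] [Algebra K F] : Periods (E.map (algebraMap K F)) where
  pair ν := p.pair (ν.comp (algebraMap K F))
  g₂_eq ν := by
    rw [p.g₂_eq (ν.comp (algebraMap K F)), WeierstrassCurve.map_c₄, RingHom.comp_apply]
  g₃_eq ν := by
    rw [p.g₃_eq (ν.comp (algebraMap K F)), WeierstrassCurve.map_c₆, RingHom.comp_apply]
  conj_mem ν x hx := by
    have h := p.conj_mem (ν.comp (algebraMap K F)) x hx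
    have e : ComplexEmbedding.conjugate (ν.comp (algebraMap K F)) =
        (ComplexEmbedding.conjugate ν).comp (algebraMap K F) := by
      ext y
      simp
    rw [e] at h
    exact h
  re ν := p.re (ν.comp (algebraMap K F))
  re_ne ν hν := p.re_ne _ (RingHom.ext fun x => DFunLike.congr_fun hν (algebraMap K F x))
  re_mem ν hν := p.re_mem _ (RingHom.ext fun x => DFunLike.congr_fun hν (algebraMap K F x))

/-- `P_σ` at the place `σ` -/
noncomputable def atF (F : Type) [Field F] [NumberField F] (pair : (F →+* ℂ) → PeriodPair)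
    (re : (F →+* ℂ) → ℝ) (v : InfinitePlace F) : ℝ :=
  if v.IsReal then re v.embedding
  else ((pair v.embedding).ω₁ * conj (pair v.embedding).ω₂).im

/-- `P_σ` at the place `σ` -/
noncomputable def Periods.at {E : WeierstrassCurve K} (p : Periods E) (v : InfinitePlace K) : ℝ :=
  atF K p.pair p.re v

/-- `Ω = |d|^(1/2) ∏ P_σ` -/
noncomputable def Periods.Om {E : WeierstrassCurve K} (p : Periods E) : ℝ :=
  Real.sqrt |(discr K : ℝ)| * ∏ v, p.at v

theorem om_congr {E E' : WeierstrassCurve K} {p : Periods E} {p' : Periods E'}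
    (h : ∀ ν, p.pair ν = p'.pair ν) (h' : ∀ ν, p.re ν = p'.re ν) : p.Om = p'.Om := by
  have h1 : p.pair = p'.pair := funext h
  have h2 : p.re = p'.re := funext h'
  unfold Periods.Om Periods.at
  rw [h1, h2]

theorem up_self {E : WeierstrassCurve K} (p : Periods E) : (p.up K).Om = p.Om :=
  om_congr (fun ν => by
    change p.pair (ν.comp (algebraMap K K)) = _
    rw [Algebra.algebraMap_self, RingHom.comp_id]) (fun ν => by
    change p.re (ν.comp (algebraMap K K)) = _
    rw [Algebra.algebraMap_self, RingHom.comp_id])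

theorem up_up {E : WeierstrassCurve K} (p : Periods E) (F : Type) [Field F] [NumberField F]
    [Algebra K F] (Y : Type) [Field Y] [NumberField Y] [Algebra K Y] [Algebra F Y]
    [IsScalarTower K F Y] : ((p.up F).up Y).Om = (p.up Y).Om :=
  om_congr (fun ν => by
    change p.pair ((ν.comp (algebraMap F Y)).comp (algebraMap K F)) = p.pair _
    rw [RingHom.comp_assoc, ← IsScalarTower.algebraMap_eq K F Y]) (fun ν => by
    change p.re ((ν.comp (algebraMap F Y)).comp (algebraMap K F)) = p.re _
    rw [RingHom.comp_assoc, ← IsScalarTower.algebraMap_eq K F Y])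

theorem area_ne (L : PeriodPair) : (L.ω₁ * conj L.ω₂).im ≠ 0 := by
  intro h
  have h1 := LinearIndependent.pair_iff.1 L.indep
  have h2 : L.ω₂ ≠ 0 := by
    intro h3
    have := h1 0 1 (by rw [h3]; simp)
    exact one_ne_zero this.2
  have h3 : (L.ω₁ * conj L.ω₂).re • L.ω₂ = (Complex.normSq L.ω₂) • L.ω₁ := by
    have h4 : L.ω₁ * conj L.ω₂ = ((L.ω₁ * conj L.ω₂).re : ℂ) := by
      apply Complex.ext
      · simp
      · rw [h]
        simp
    have h5 : ((L.ω₁ * conj L.ω₂).re : ℂ) * L.ω₂ = (Complex.normSq L.ω₂ : ℂ) * L.ω₁ := by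
      rw [← h4, Complex.normSq_eq_conj_mul_self]
      ring
    simpa using h5
  have h4 := h1 (-(Complex.normSq L.ω₂)) ((L.ω₁ * conj L.ω₂).re) (by
    rw [h3, neg_smul, neg_add_cancel])
  have h5 := neg_eq_zero.1 h4.1
  exact h2 (Complex.normSq_eq_zero.1 h5)

/-- lattices with the same elements -/
theorem area_sim {L L' : PeriodPair} (h : ∀ x ∈ L.lattice, conj x ∈ L'.lattice) :
    Sim ((L.ω₁ * conj L.ω₂).im) ((L'.ω₁ * conj L'.ω₂).im) := by
  obtain ⟨a, b, h1⟩ := PeriodPair.mem_lattice.1 (h _ L.ω₁_mem_lattice)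
  obtain ⟨c, d, h2⟩ := PeriodPair.mem_lattice.1 (h _ L.ω₂_mem_lattice)
  have h3 : (L.ω₁ * conj L.ω₂).im = -((a * d - b * c : ℤ) : ℝ) * (L'.ω₁ * conj L'.ω₂).im := by
    have e1 : L.ω₁ = conj (a * L'.ω₁ + b * L'.ω₂) := by rw [h1, Complex.conj_conj]
    have e2 : conj L.ω₂ = c * L'.ω₁ + d * L'.ω₂ := h2.symm
    rw [e1, e2, map_add, map_mul, map_mul]
    simp only [Complex.add_im, Complex.mul_im, Complex.add_re, Complex.mul_re, Complex.conj_re,
      Complex.conj_im, map_intCast, Complex.intCast_re, Complex.intCast_im]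
    push_cast
    ring
  have h4 := area_ne L
  refine ⟨-((a * d - b * c : ℤ) : ℚ), ?_, ?_⟩
  · intro h0
    apply h4
    rw [h3]
    have : -((a * d - b * c : ℤ) : ℝ) = 0 := by exact_mod_cast h0
    rw [this, zero_mul]
  · rw [h3]
    push_cast
    ring

/-- **The periods in a relation.** -/
theorem om_rel {ι : Type} [Fintype ι] {X : ι → Ext K} {n : ι → ℤ} (h : Rel X n)
    {E : WeierstrassCurve K} (p : Periods E) : Sim (∏ j, (p.up (X j).F).Om ^ (n j)) 1 := by
  have h1 : Sim (∏ j, (∏ v, (p.up (X j).F).at v) ^ (n j)) 1 := by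
    refine prod_places_rel h (a := fun u => if u.IsReal then p.re u.embedding else 1)
      (b := fun u => ((p.pair u.embedding).ω₁ * conj (p.pair u.embedding).ω₂).im) ?_ ?_ ?_ ?_
    · intro u
      by_cases hu : u.IsReal
      · rw [if_pos hu]
        exact p.re_ne _ (InfinitePlace.isReal_iff.1 hu)
      · rw [if_neg hu]
        exact one_ne_zero
    · exact fun u => area_ne _
    · intro j v hv
      have h2 := isReal_comap (K := K) hv
      unfold Periods.at atF
      rw [if_pos hv, if_pos h2]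
      refine Sim.of_eq ?_
      change p.re _ = p.re _
      rcases embedding_comap (v := v) (u := v.comap (algebraMap K (X j).F)) rfl with h3 | h3
      · rw [h3]
      · rw [h3]
        congr 1
        exact InfinitePlace.isReal_iff.1 h2
    · intro j v hv
      unfold Periods.at atF
      rw [if_neg (InfinitePlace.not_isReal_iff_isComplex.2 hv)]
      change Sim ((p.pair (v.embedding.comp (algebraMap K (X j).F))).ω₁ *
        conj (p.pair (v.embedding.comp (algebraMap K (X j).F))).ω₂).im _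
      rcases embedding_comap (v := v) (u := v.comap (algebraMap K (X j).F)) rfl with h3 | h3
      · rw [h3]
        exact Sim.refl _
      · rw [h3]
        exact (area_sim (p.conj_mem _)).symm
  have h2 : ∏ j, (Real.sqrt |(discr (X j).F : ℝ)|) ^ (n j) = 1 := by
    have h3 : ∀ j, Real.sqrt |(discr (X j).F : ℝ)| = Real.exp (ld (X j).F / 2) := by
      intro j
      have h4 := discr_pos (X j).F
      rw [Real.sqrt_eq_rpow, Real.rpow_def_of_pos h4]
      congr 1
      unfold ld
      ring
    have h7 : ∀ (x : ℝ) (k : ℤ), Real.exp x ^ k = Real.exp (k * x) := by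
      intro x k
      rw [mul_comm, Real.exp_mul, Real.rpow_intCast]
    simp only [h3, h7]
    rw [← Real.exp_sum]
    have h4 : ∑ j, (n j : ℝ) * (ld (X j).F / 2) = 0 := by
      have h5 := disc_rel h
      have h6 : ∑ j, (n j : ℝ) * (ld (X j).F / 2) = (∑ j, (n j : ℝ) * ld (X j).F) / 2 := by
        rw [Finset.sum_div]
        exact Finset.sum_congr rfl fun j _ => by ring
      rw [h6, h5, zero_div]
    rw [h4, Real.exp_zero]
  unfold Periods.Om
  simp only [mul_zpow, Finset.prod_mul_distrib]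
  rw [h2, one_mul]
  exact h1

theorem om_rel' {ι : Type} [Fintype ι] {X : ι → Ext K} {n : ι → ℤ} {m : ℤ}
    (h : ∀ σ : GK K, ∑ j, n j * (fixn K (X j).F σ : ℤ) = m) {E : WeierstrassCurve K}
    (p : Periods E) : Sim (∏ j, (p.up (X j).F).Om ^ (n j)) (p.Om ^ m) := by
  have h1 := om_rel (cons_rel h) p
  rw [Fintype.prod_option] at h1
  change Sim ((p.up K).Om ^ (-m) * ∏ j, (p.up (X j).F).Om ^ (n j)) 1 at h1
  rw [up_self] at h1
  have h2 := (Sim.refl (p.Om ^ m)).mul h1
  by_cases h0 : p.Om = 0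
  · exact absurd h0 (by
      refine mul_ne_zero (Real.sqrt_pos.2 (discr_pos K)).ne' (Finset.prod_ne_zero_iff.2 fun v _ => ?_)
      unfold Periods.at atF
      split_ifs with hv
      · exact p.re_ne _ (InfinitePlace.isReal_iff.1 hv)
      · exact area_ne _)
  · rwa [← mul_assoc, ← zpow_add₀ h0, add_neg_cancel, zpow_zero, one_mul, mul_one] at h2

theorem om_ne {E : WeierstrassCurve K} (p : Periods E) : p.Om ≠ 0 := by
  refine mul_ne_zero ?_ (Finset.prod_ne_zero_iff.2 fun v _ => ?_)
  · exact (Real.sqrt_pos.2 (discr_pos K)).ne'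
  · unfold Periods.at atF
    split_ifs with hv
    · exact p.re_ne _ (InfinitePlace.isReal_iff.1 hv)
    · exact area_ne _

end

end Pool.Agent.Q92.LV
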