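import Pool.Agent.Q92.FE.Disc

/-! The real and the complex places above a place, in a relation. -/

set_option autoImplicit false
set_option linter.unusedSectionVars false

namespace Pool.Agent.Q92.LV

open NumberField Pool.Agent.W353.NF Pool.Agent.W401.Cheb Pool.Agent.Q5.BR Pool.Agent.Q92.FE
open scoped Classical

section
variable {K : Type} [Field K] [NumberField K]

theorem exists_conjK {ν : K →+* ℂ} (hν : ComplexEmbedding.IsReal ν) :
    ∃ (ι₀ : AlgebraicClosure K →+* ℂ) (c : GK K),
      ι₀.comp (algebraMap K (AlgebraicClosure K)) = ν ∧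
      ∀ x, ι₀ (c x) = (starRingEnd ℂ) (ι₀ x) := by
  let _ : Algebra K ℂ := ν.toAlgebra
  let i₀ : AlgebraicClosure K →ₐ[K] ℂ := IsAlgClosed.lift
  let _ : Algebra (AlgebraicClosure K) ℂ := i₀.toRingHom.toAlgebra
  have : IsScalarTower K (AlgebraicClosure K) ℂ :=
    IsScalarTower.of_algebraMap_eq fun x => (i₀.commutes x).symm
  let φ : ℂ ≃ₐ[K] ℂ := AlgEquiv.ofRingEquiv (f := starRingAut) (by
    intro x
    exact DFunLike.congr_fun hν x)
  refine ⟨i₀.toRingHom, AlgEquiv.restrictNormal φ (AlgebraicClosure K), ?_, fun x => ?_⟩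
  · ext x
    exact i₀.commutes x
  · exact AlgEquiv.restrictNormal_commutes φ (AlgebraicClosure K) x

variable (F : Type) [Field F] [NumberField F] [Algebra K F]

/-- the number of the embeddings above an embedding -/
theorem card_above (ν : K →+* ℂ) :
    Nat.card {μ : F →+* ℂ // μ.comp (algebraMap K F) = ν} = Module.finrank K F := by
  let _ : Algebra K ℂ := ν.toAlgebra
  have hfd : FiniteDimensional K F := inferInstance
  rw [← AlgHom.card K F ℂ, ← Nat.card_eq_fintype_card]
  refine Nat.card_congr ⟨fun μ => ⟨μ.1, fun x => DFunLike.congr_fun μ.2 x⟩,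
    fun i => ⟨i.toRingHom, RingHom.ext fun x => i.commutes x⟩, fun μ => rfl, fun i => rfl⟩

/-- the embeddings above an embedding -/
noncomputable def embK (ι₀ : AlgebraicClosure K →+* ℂ) : (F →ₐ[K] AlgebraicClosure K) ≃
    {μ : F →+* ℂ // μ.comp (algebraMap K F) = ι₀.comp (algebraMap K (AlgebraicClosure K))} :=
  Equiv.ofBijective (fun i => ⟨ι₀.comp i.toRingHom, RingHom.ext fun x =>
      congrArg ι₀ (i.commutes x)⟩) (by
    have hfd : FiniteDimensional K F := inferInstance
    have hfe : Fintype {μ : F →+* ℂ // μ.comp (algebraMap K F) =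
      ι₀.comp (algebraMap K (AlgebraicClosure K))} := Fintype.ofFinite _
    rw [Fintype.bijective_iff_injective_and_card]
    constructor
    · intro i j hij
      apply AlgHom.ext
      intro x
      exact ι₀.injective (DFunLike.congr_fun (congrArg Subtype.val hij) x)
    · rw [AlgHom.card, ← Nat.card_eq_fintype_card, card_above])

/-- the number of the real embeddings above a real embedding -/
theorem card_real_above {ν : K →+* ℂ} {ι₀ : AlgebraicClosure K →+* ℂ} {c : GK K}
    (h1 : ι₀.comp (algebraMap K (AlgebraicClosure K)) = ν)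
    (h2 : ∀ x, ι₀ (c x) = (starRingEnd ℂ) (ι₀ x)) :
    Nat.card {μ : F →+* ℂ // μ.comp (algebraMap K F) = ν ∧ ComplexEmbedding.IsReal μ} =
      fixn K F c := by
  subst h1
  unfold fixn
  symm
  let e : {i : F →ₐ[K] AlgebraicClosure K // act K F c i = i} ≃
      {μ : {μ : F →+* ℂ // μ.comp (algebraMap K F) = ι₀.comp (algebraMap K (AlgebraicClosure K))} //
        ComplexEmbedding.IsReal μ.1} := Equiv.subtypeEquiv (embK F ι₀) (by
    intro i
    rw [act_apply]
    constructor
    · intro h
      apply RingHom.ext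
      intro x
      change (starRingEnd ℂ) (ι₀ (i x)) = ι₀ (i x)
      rw [← h2]
      congr 1
      exact DFunLike.congr_fun h x
    · intro h
      apply AlgHom.ext
      intro x
      apply ι₀.injective
      have h3 : (starRingEnd ℂ) (ι₀ (i x)) = ι₀ (i x) := DFunLike.congr_fun h x
      rw [← h2] at h3
      exact h3)
  rw [Nat.card_congr e]
  exact Nat.card_congr (Equiv.subtypeSubtypeEquivSubtypeInter
    (fun μ : F →+* ℂ => μ.comp (algebraMap K F) = ι₀.comp (algebraMap K (AlgebraicClosure K)))
    (fun μ => ComplexEmbedding.IsReal μ))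

/-- the number of the real places above `u` -/
noncomputable def rr (u : InfinitePlace K) : ℕ :=
  ((Finset.univ : Finset (InfinitePlace F)).filter
    fun v => v.comap (algebraMap K F) = u ∧ v.IsReal).card

/-- the number of the complex places above `u` -/
noncomputable def cc (u : InfinitePlace K) : ℕ :=
  ((Finset.univ : Finset (InfinitePlace F)).filter
    fun v => v.comap (algebraMap K F) = u ∧ v.IsComplex).card

variable {F}

theorem comap_eq_mk (v : InfinitePlace F) :
    v.comap (algebraMap K F) = InfinitePlace.mk (v.embedding.comp (algebraMap K F)) := by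
  conv_lhs => rw [← InfinitePlace.mk_embedding v]
  rw [InfinitePlace.comap_mk]

theorem embedding_comap {v : InfinitePlace F} {u : InfinitePlace K}
    (h : v.comap (algebraMap K F) = u) : v.embedding.comp (algebraMap K F) = u.embedding ∨
      v.embedding.comp (algebraMap K F) = ComplexEmbedding.conjugate u.embedding := by
  rw [comap_eq_mk, ← InfinitePlace.mk_embedding u, InfinitePlace.mk_eq_iff] at h
  rcases h with h | h
  · exact Or.inl h
  · right
    rw [← h]
    ext x
    simp

theorem isReal_comap {v : InfinitePlace F} (h : v.IsReal) :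
    (v.comap (algebraMap K F)).IsReal := by
  rw [comap_eq_mk, InfinitePlace.isReal_mk_iff]
  rw [InfinitePlace.isReal_iff] at h
  ext x
  exact DFunLike.congr_fun h (algebraMap K F x)

variable (F)

theorem rr_complex {u : InfinitePlace K} (hu : u.IsComplex) : rr F u = 0 := by
  unfold rr
  rw [Finset.card_eq_zero, Finset.filter_eq_empty_iff]
  rintro v - ⟨h1, h2⟩
  have h3 := isReal_comap (K := K) h2
  rw [h1] at h3
  exact InfinitePlace.not_isReal_iff_isComplex.2 hu h3

theorem rr_real {u : InfinitePlace K} (hu : u.IsReal) : rr F u =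
    Nat.card {μ : F →+* ℂ // μ.comp (algebraMap K F) = u.embedding ∧
      ComplexEmbedding.IsReal μ} := by
  have hu' : ComplexEmbedding.IsReal u.embedding := InfinitePlace.isReal_iff.1 hu
  have h0 : rr F u = Nat.card {v : InfinitePlace F // v.comap (algebraMap K F) = u ∧ v.IsReal} := by
    rw [Nat.card_eq_fintype_card, Fintype.card_subtype]
    rfl
  rw [h0]
  refine Nat.card_congr ⟨fun v => ⟨v.1.embedding, ?_, InfinitePlace.isReal_iff.1 v.2.2⟩,
    fun μ => ⟨InfinitePlace.mk μ.1, ?_, InfinitePlace.isReal_mk_iff.2 μ.2.2⟩, fun v => ?_,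
    fun μ => ?_⟩
  · rcases embedding_comap v.2.1 with h | h
    · exact h
    · rw [h]
      exact hu'
  · rw [InfinitePlace.comap_mk, μ.2.1, InfinitePlace.mk_embedding]
  · exact Subtype.ext (InfinitePlace.mk_embedding v.1)
  · exact Subtype.ext (InfinitePlace.embedding_mk_eq_of_isReal μ.2.2)

/-- the local degrees -/
theorem rr_cc (u : InfinitePlace K) : rr F u + 2 * cc F u = u.mult * Module.finrank K F := by
  set S : Finset (F →+* ℂ) := Finset.univ.filter
    fun μ => InfinitePlace.mk (μ.comp (algebraMap K F)) = u with hS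
  have h1 : S.card = u.mult * Module.finrank K F := by
    have h2 : ∀ μ ∈ S, μ.comp (algebraMap K F) ∈ (Finset.univ.filter
        fun ν : K →+* ℂ => InfinitePlace.mk ν = u) := by
      intro μ hμ
      rw [hS, Finset.mem_filter] at hμ
      rw [Finset.mem_filter]
      exact ⟨Finset.mem_univ _, hμ.2⟩
    rw [Finset.card_eq_sum_card_fiberwise h2]
    have h3 : ∀ ν ∈ (Finset.univ.filter fun ν : K →+* ℂ => InfinitePlace.mk ν = u),
        (S.filter fun μ => μ.comp (algebraMap K F) = ν).card = Module.finrank K F := by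
      intro ν hν
      rw [Finset.mem_filter] at hν
      rw [← card_above F ν, Nat.card_eq_fintype_card, Fintype.card_subtype]
      congr 1
      ext μ
      rw [Finset.mem_filter, hS, Finset.mem_filter, Finset.mem_filter]
      constructor
      · rintro ⟨-, h⟩
        exact ⟨Finset.mem_univ _, h⟩
      · rintro ⟨-, h⟩
        refine ⟨⟨Finset.mem_univ _, ?_⟩, h⟩
        rw [h]
        exact hν.2
    rw [Finset.sum_congr rfl h3, Finset.sum_const, smul_eq_mul, InfinitePlace.card_filter_mk_eq]
  have h2 : S.card = ∑ v ∈ Finset.univ.filter (fun v : InfinitePlace F =>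
      v.comap (algebraMap K F) = u), v.mult := by
    have h2 : ∀ μ ∈ S, InfinitePlace.mk μ ∈ (Finset.univ.filter
        fun v : InfinitePlace F => v.comap (algebraMap K F) = u) := by
      intro μ hμ
      rw [hS, Finset.mem_filter] at hμ
      rw [Finset.mem_filter, InfinitePlace.comap_mk]
      exact ⟨Finset.mem_univ _, hμ.2⟩
    rw [Finset.card_eq_sum_card_fiberwise h2]
    refine Finset.sum_congr rfl fun v hv => ?_
    rw [Finset.mem_filter] at hv
    rw [← InfinitePlace.card_filter_mk_eq v]
    congr 1
    ext μ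
    rw [Finset.mem_filter, hS, Finset.mem_filter, Finset.mem_filter]
    constructor
    · rintro ⟨-, h⟩
      exact ⟨Finset.mem_univ _, h⟩
    · rintro ⟨-, h⟩
      refine ⟨⟨Finset.mem_univ _, ?_⟩, h⟩
      rw [← InfinitePlace.comap_mk, h]
      exact hv.2
  have h3 : ∑ v ∈ Finset.univ.filter (fun v : InfinitePlace F => v.comap (algebraMap K F) = u),
      v.mult = rr F u + 2 * cc F u := by
    rw [← Finset.sum_filter_add_sum_filter_not _ (fun v : InfinitePlace F => v.IsReal)]
    congr 1
    · unfold rr
      rw [Finset.filter_filter, Finset.card_eq_sum_ones]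
      refine Finset.sum_congr rfl fun v hv => ?_
      rw [Finset.mem_filter] at hv
      exact hv.2.2.mult_eq_one
    · unfold cc
      rw [Finset.filter_filter, Finset.card_eq_sum_ones, Finset.mul_sum]
      refine Finset.sum_congr ?_ fun v hv => ?_
      · ext v
        rw [Finset.mem_filter, Finset.mem_filter, InfinitePlace.not_isReal_iff_isComplex]
      · rw [Finset.mem_filter] at hv
        rw [hv.2.2.mult_eq_two, mul_one]
  rw [← h3, ← h2, h1]

variable {ι : Type} [Fintype ι]

theorem finrank_rel {X : ι → Ext K} {n : ι → ℤ} (h : Rel X n) :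
    ∑ j, n j * (Module.finrank K (X j).F : ℤ) = 0 := by
  have h1 := degree_rel h
  have h2 : (Module.finrank ℚ K : ℤ) * ∑ j, n j * (Module.finrank K (X j).F : ℤ) = 0 := by
    rw [← h1, Finset.mul_sum]
    refine Finset.sum_congr rfl fun j _ => ?_
    rw [← Module.finrank_mul_finrank ℚ K (X j).F]
    push_cast
    ring
  have h3 : (Module.finrank ℚ K : ℤ) ≠ 0 := by
    exact_mod_cast (Module.finrank_pos (R := ℚ) (M := K)).ne'
  exact (mul_eq_zero.1 h2).resolve_left h3

/-- **The real places above `u` in a relation.** -/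
theorem rr_rel {X : ι → Ext K} {n : ι → ℤ} (h : Rel X n) (u : InfinitePlace K) :
    ∑ j, n j * (rr (X j).F u : ℤ) = 0 := by
  rcases u.isReal_or_isComplex with hu | hu
  · obtain ⟨ι₀, c, h1, h2⟩ := exists_conjK (InfinitePlace.isReal_iff.1 hu)
    rw [← h c]
    refine Finset.sum_congr rfl fun j _ => ?_
    rw [rr_real (X j).F hu, card_real_above (X j).F h1 h2]
  · refine Finset.sum_eq_zero fun j _ => ?_
    rw [rr_complex (X j).F hu, Nat.cast_zero, mul_zero]

/-- **The complex places above `u` in a relation.** -/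
theorem cc_rel {X : ι → Ext K} {n : ι → ℤ} (h : Rel X n) (u : InfinitePlace K) :
    ∑ j, n j * (cc (X j).F u : ℤ) = 0 := by
  have h1 := rr_rel h u
  have h2 := finrank_rel h
  have h3 : ∀ j, n j * (rr (X j).F u : ℤ) + 2 * (n j * (cc (X j).F u : ℤ)) =
      (u.mult : ℤ) * (n j * (Module.finrank K (X j).F : ℤ)) := by
    intro j
    have h4 : ((rr (X j).F u + 2 * cc (X j).F u : ℕ) : ℤ) =
        ((u.mult * Module.finrank K (X j).F : ℕ) : ℤ) := by rw [rr_cc]
    push_cast at h4
    linear_combination n j * h4
  have h4 : ∑ j, n j * (rr (X j).F u : ℤ) + 2 * ∑ j, n j * (cc (X j).F u : ℤ) = 0 := by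
    rw [Finset.mul_sum, ← Finset.sum_add_distrib, Finset.sum_congr rfl fun j _ => h3 j,
      ← Finset.mul_sum, h2, mul_zero]
  omega

end

end Pool.Agent.Q92.LV
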