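import Pool.Agent.Q92.LV.Law

/-! Values and leading coefficients: reformulations. -/

set_option autoImplicit false
set_option linter.unusedSectionVars false

namespace Pool.Agent.Q92.LV

open NumberField IsDedekindDomain Filter Pool.Agent.Q5.BR Topology
open Pool.Agent.TH322.BC.Edge (MinimalModels)
open scoped Classical

open Pool.Agent.TH322.BC.Edge renaming LSeries → LS

/-- connected open sets with the half-plane and the point `1` -/
def IsDomain1 (D : Set ℂ) : Prop :=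
  IsOpen D ∧ IsPreconnected D ∧ (1 : ℂ) ∈ D ∧ ∀ s : ℂ, 3 / 2 < s.re → s ∈ D

/-- the identity theorem -/
theorem ident1 {D : Set ℂ} (hD : IsDomain1 D) {f g : ℂ → ℂ} (hf : MeromorphicOn f D)
    (hg : MeromorphicOn g D) (h : ∀ s : ℂ, 3 / 2 < s.re → f s = g s) :
    ∀ᶠ s in 𝓝[≠] (1 : ℂ), f s = g s := by
  obtain ⟨-, hpre, h1, hhalf⟩ := hD
  have hconn : IsConnected D := ⟨⟨1, h1⟩, hpre⟩
  have hd : MeromorphicOn (fun s => f s - g s) D := fun s hs => (hf s hs).fun_sub (hg s hs)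
  have hopen : IsOpen {s : ℂ | 3 / 2 < s.re} := isOpen_lt continuous_const Complex.continuous_re
  have h2 : meromorphicOrderAt (fun s => f s - g s) 2 = ⊤ := by
    rw [meromorphicOrderAt_eq_top_iff]
    have h2' : ({s : ℂ | 3 / 2 < s.re} : Set ℂ) ∈ 𝓝 (2 : ℂ) :=
      hopen.mem_nhds (by change (3 / 2 : ℝ) < (2 : ℂ).re; norm_num)
    filter_upwards [mem_nhdsWithin_of_mem_nhds h2'] with s hs
    rw [h s hs, sub_self]
  have h3 : meromorphicOrderAt (fun s => f s - g s) 1 = ⊤ := by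
    by_contra h4
    have h5 := (hd.exists_meromorphicOrderAt_ne_top_iff_forall hconn).1 ⟨⟨1, h1⟩, h4⟩
    exact h5 ⟨2, hhalf 2 (by norm_num)⟩ h2
  rw [meromorphicOrderAt_eq_top_iff] at h3
  filter_upwards [h3] with s hs
  exact sub_eq_zero.1 hs

/-- a function of order zero may be made analytic -/
theorem exists_analytic {f : ℂ → ℂ} {D : Set ℂ} (hf : MeromorphicOn f D) (h1 : (1 : ℂ) ∈ D)
    (h : meromorphicOrderAt f 1 = 0) : ∃ g : ℂ → ℂ, MeromorphicOn g D ∧ (∀ s, s ≠ 1 → g s = f s) ∧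
      AnalyticAt ℂ g 1 ∧ g 1 = meromorphicTrailingCoeffAt f 1 := by
  obtain ⟨g, hg, hg1, hgf⟩ := (meromorphicOrderAt_eq_int_iff (hf 1 h1) (n := 0)).1 (by
    rw [h]
    rfl)
  simp only [zpow_zero, one_smul] at hgf
  have htc : meromorphicTrailingCoeffAt f 1 = g 1 := by
    rw [meromorphicTrailingCoeffAt_congr_nhdsNE hgf]
    exact hg.meromorphicTrailingCoeffAt_of_ne_zero hg1
  have he : Function.update f 1 (g 1) =ᶠ[𝓝 (1 : ℂ)] g := by
    rw [eventually_nhdsWithin_iff] at hgf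
    filter_upwards [hgf] with s hs
    by_cases h2 : s = 1
    · rw [h2, Function.update_self]
    · rw [Function.update_of_ne h2]
      exact hs h2
  have hne : ∀ z : ℂ, Function.update f 1 (g 1) =ᶠ[𝓝[≠] z] f := by
    intro z
    by_cases h2 : z = 1
    · subst h2
      filter_upwards [self_mem_nhdsWithin] with s hs
      exact Function.update_of_ne hs _ _
    · have h3 : ∀ᶠ s in 𝓝[≠] z, s ≠ 1 := eventually_nhdsWithin_of_eventually_nhds
        (isOpen_ne.mem_nhds h2)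
      filter_upwards [h3] with s hs
      exact Function.update_of_ne hs _ _
  refine ⟨Function.update f 1 (g 1), fun z hz => (hf z hz).congr (hne z).symm,
    fun s hs => Function.update_of_ne hs _ _, hg.congr he.symm, ?_⟩
  rw [Function.update_self, htc]

section
variable {F : Type} [Field F] [NumberField F]

/-- the value at `s = 1` -/
theorem allLT_value {D : Set ℂ} (h1 : (1 : ℂ) ∈ D) {E : WeierstrassCurve F} {c : ℝ}
    (hc : c ≠ 0) : AllLT D E 1 0 c ↔ ∀ V : HeightOneSpectrum (𝓞 F) → WeierstrassCurve (𝓞 F),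
      MinimalModels E V → ∃ f : ℂ → ℂ, MeromorphicOn f D ∧
        (∀ s : ℂ, 3 / 2 < s.re → f s = LS V s) ∧ AnalyticAt ℂ f 1 ∧
          ∃ q : ℚ, q ≠ 0 ∧ f 1 = q * (c : ℂ) := by
  constructor
  · intro h V hV
    obtain ⟨f, hf, hf', h3, h4⟩ := h V hV
    rw [mul_zero] at h3
    obtain ⟨g, hg, hgf, hga, hg1⟩ := exists_analytic hf h1 h3
    obtain ⟨q, hq, h5⟩ := h4
    refine ⟨g, hg, fun s hs => ?_, hga, q, hq, ?_⟩
    · rw [hgf s (by rintro rfl; norm_num at hs), hf' s hs, zpow_one]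
    · rw [hg1, h5, zpow_one]
  · intro h V hV
    obtain ⟨f, hf, hf', h3, q, hq, h4⟩ := h V hV
    have hne : f 1 ≠ 0 := by
      rw [h4]
      exact mul_ne_zero (by exact_mod_cast hq) (by exact_mod_cast hc)
    refine ⟨f, hf, fun s hs => ?_, ?_, q, hq, ?_⟩
    · rw [hf' s hs, zpow_one]
    · rw [h3.meromorphicOrderAt_eq, h3.analyticOrderAt_eq_zero.2 hne, mul_zero]
      rfl
    · rw [h3.meromorphicTrailingCoeffAt_of_ne_zero hne, zpow_one, h4]

/-- the leading coefficient at `s = 1` -/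
theorem allLT_lead {D : Set ℂ} {E : WeierstrassCurve F} (hE : E.IsElliptic) {c : ℝ} :
    AllLT D E 1 (rk E) (c * reg E) ↔ ∀ V : HeightOneSpectrum (𝓞 F) → WeierstrassCurve (𝓞 F),
      MinimalModels E V → ∃ f : ℂ → ℂ, MeromorphicOn f D ∧
        (∀ s : ℂ, 3 / 2 < s.re → f s = LS V s) ∧
        meromorphicOrderAt f 1 = ((rk E : ℤ) : WithTop ℤ) ∧
          ∃ (q : ℚ) (R : ℝ), q ≠ 0 ∧ IsRegE E R ∧
            meromorphicTrailingCoeffAt f 1 = q * ((c * R : ℝ) : ℂ) := by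
  constructor
  · intro h V hV
    obtain ⟨f, hf, hf', h3, q, hq, h4⟩ := h V hV
    refine ⟨f, hf, fun s hs => ?_, ?_, q, reg E, hq, reg_spec hE, ?_⟩
    · rw [hf' s hs, zpow_one]
    · rw [h3, one_mul]
    · rw [h4, zpow_one]
  · intro h V hV
    obtain ⟨f, hf, hf', h3, q, R, hq, hR, h4⟩ := h V hV
    refine ⟨f, hf, fun s hs => ?_, ?_, ?_⟩
    · rw [hf' s hs, zpow_one]
    · rw [h3, one_mul]
    · obtain ⟨q', hq', h5⟩ := hR.quot hE (reg_spec hE)
      refine ⟨q * q', mul_ne_zero hq hq', ?_⟩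
      rw [h4, zpow_one, h5]
      push_cast
      ring

/-- the leading coefficient gives the value -/
theorem value_of_lead {D : Set ℂ} (hD : IsDomain1 D) {E : WeierstrassCurve F}
    {c : ℝ} {V : HeightOneSpectrum (𝓞 F) → WeierstrassCurve (𝓞 F)}
    (h : ∃ f : ℂ → ℂ, MeromorphicOn f D ∧ (∀ s : ℂ, 3 / 2 < s.re → f s = LS V s) ∧
        meromorphicOrderAt f 1 = ((rk E : ℤ) : WithTop ℤ) ∧
          ∃ (q : ℚ) (R : ℝ), q ≠ 0 ∧ IsRegE E R ∧
            meromorphicTrailingCoeffAt f 1 = q * ((c * R : ℝ) : ℂ)) {f : ℂ → ℂ}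
    (hf : MeromorphicOn f D) (hf' : ∀ s : ℂ, 3 / 2 < s.re → f s = LS V s) (h1 : AnalyticAt ℂ f 1)
    (hne : f 1 ≠ 0) : rk E = 0 ∧ ∃ q : ℚ, q ≠ 0 ∧ f 1 = q * (c : ℂ) := by
  obtain ⟨g, hg, hg', h3, q, R, hq, hR, h4⟩ := h
  have hid := ident1 hD hf hg fun s hs => by rw [hf' s hs, hg' s hs]
  have h5 : meromorphicOrderAt f 1 = 0 := by
    rw [h1.meromorphicOrderAt_eq, h1.analyticOrderAt_eq_zero.2 hne]
    rfl
  rw [meromorphicOrderAt_congr hid, h3] at h5
  have h6 : rk E = 0 := by exact_mod_cast h5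
  refine ⟨h6, q, hq, ?_⟩
  have h7 : R = 1 := by
    obtain ⟨h, -, P, -, rfl⟩ := hR
    have h8 : IsEmpty (Fin (rk E)) := by
      rw [h6]
      infer_instance
    exact Matrix.det_isEmpty
  have h8 := meromorphicTrailingCoeffAt_congr_nhdsNE hid
  rw [h1.meromorphicTrailingCoeffAt_of_ne_zero hne, h4, h7, mul_one] at h8
  exact h8

end

end Pool.Agent.Q92.LV
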