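import Pool.Agent.Q92.LV.Gram

/-! The Gram determinants of maximal independent families of invariant elements of a lattice. -/

set_option autoImplicit false
set_option linter.unusedSectionVars false

namespace Pool.Agent.Q92.LV

open Module TensorProduct Pool.Agent.Q5.RG
open Pool.Agent.Q5.SO (fq)
open scoped Classical

/-- a maximal independent family spans up to multiples -/
theorem exists_multiple {M : Type} [AddCommGroup M] [Module.Finite ℤ M] {r : ℕ} {P : Fin r → M}
    (hP : LinearIndependent ℤ P) (hr : finrank ℤ M = r) (x : M) :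
    ∃ m : ℤ, m ≠ 0 ∧ m • x ∈ Submodule.span ℤ (Set.range P) := by
  set S := Submodule.span ℤ (Set.range P) with hS
  have h1 : finrank ℤ S = r := by
    rw [hS, finrank_span_eq_card hP, Fintype.card_fin]
  have h2 := Submodule.finrank_quotient_add_finrank S
  have h3 : finrank ℤ (M ⧸ S) = 0 := by omega
  have h4 := Module.finrank_eq_zero_iff_isTorsion.1 h3
  obtain ⟨⟨m, hm⟩, hmx⟩ := @h4 (S.mkQ x)
  refine ⟨m, nonZeroDivisors.ne_zero hm, ?_⟩
  have h5 : S.mkQ (m • x) = 0 := by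
    rw [map_smul]
    exact hmx
  exact (Submodule.Quotient.mk_eq_zero S).1 h5

section
variable {G A : Type} [Group G] [AddCommGroup A]

/-- the rational representation -/
noncomputable def qx (ρ : Representation ℤ G A) : Representation ℚ G (ℚ ⊗[ℤ] A) where
  toFun h := LinearMap.baseChange ℚ (ρ h)
  map_one' := by
    rw [map_one]
    change LinearMap.baseChange ℚ (LinearMap.id : A →ₗ[ℤ] A) = _
    rw [LinearMap.baseChange_id]
    rfl
  map_mul' g h := by
    rw [map_mul]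
    change LinearMap.baseChange ℚ ((ρ g) ∘ₗ (ρ h)) = _
    rw [LinearMap.baseChange_comp]
    rfl

theorem qx_apply (ρ : Representation ℤ G A) (h : G) (c : ℚ) (a : A) :
    qx ρ h (c ⊗ₜ a) = c ⊗ₜ (ρ h a) := rfl

/-- the map to the rational vector space -/
noncomputable def tm (a : A) : ℚ ⊗[ℤ] A := (1 : ℚ) ⊗ₜ[ℤ] a

theorem tm_add (a b : A) : tm (a + b) = tm a + tm b := TensorProduct.tmul_add _ _ _

theorem tm_zsmul (m : ℤ) (a : A) : tm (m • a) = (m : ℚ) • tm a := by
  unfold tm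
  rw [TensorProduct.tmul_smul, ← Int.cast_smul_eq_zsmul ℚ]

theorem tm_sum {κ : Type} (s : Finset κ) (a : κ → A) : tm (∑ l ∈ s, a l) = ∑ l ∈ s, tm (a l) :=
  TensorProduct.tmul_sum _ _ _

/-- elements of the vector space have multiples in the image -/
theorem exists_tm (v : ℚ ⊗[ℤ] A) : ∃ (m : ℤ) (a : A), m ≠ 0 ∧ (m : ℚ) • v = tm a := by
  obtain ⟨⟨a, ⟨m, hm⟩⟩, h⟩ := IsLocalizedModule.surj (nonZeroDivisors ℤ)
    (TensorProduct.mk ℤ ℚ A 1) v
  refine ⟨m, a, nonZeroDivisors.ne_zero hm, ?_⟩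
  rw [Int.cast_smul_eq_zsmul]
  exact h

theorem tm_indep {κ : Type} {P : κ → A} (hP : LinearIndependent ℤ P) :
    LinearIndependent ℚ fun l => tm (P l) :=
  hP.of_isLocalizedModule ℚ (nonZeroDivisors ℤ) (TensorProduct.mk ℤ ℚ A 1)

/-- the pairing on the rational vector space -/
noncomputable def bil (B : A →+ A →+ ℝ) : (ℚ ⊗[ℤ] A) →ₗ[ℚ] (ℚ ⊗[ℤ] A) →ₗ[ℚ] ℝ :=
  LinearMap.liftBaseChange ℚ (AddMonoidHom.toIntLinearMap
    { toFun := fun x => LinearMap.liftBaseChange ℚ (B x).toIntLinearMap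
      map_zero' := by
        apply TensorProduct.AlgebraTensorModule.ext
        intro c a
        simp
      map_add' := fun x y => by
        apply TensorProduct.AlgebraTensorModule.ext
        intro c a
        simp [smul_add] })

theorem bil_tm (B : A →+ A →+ ℝ) (x y : A) : bil B (tm x) (tm y) = B x y := by
  unfold bil tm
  simp

theorem bil_inv {ρ : Representation ℤ G A} {B : A →+ A →+ ℝ}
    (hB : ∀ g x y, B (ρ g x) (ρ g y) = B x y) (g : G) (v w : ℚ ⊗[ℤ] A) :
    bil B (qx ρ g v) (qx ρ g w) = bil B v w := by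
  obtain ⟨m, a, hm, ha⟩ := exists_tm v
  obtain ⟨n, b, hn, hb⟩ := exists_tm w
  have hm' : (m : ℝ) ≠ 0 := by exact_mod_cast hm
  have hn' : (n : ℝ) ≠ 0 := by exact_mod_cast hn
  have h1 : ∀ v' w', bil B ((m : ℚ) • v') ((n : ℚ) • w') = (m : ℝ) * ((n : ℝ) * bil B v' w') := by
    intro v' w'
    rw [(bil B).map_smul, LinearMap.smul_apply, (bil B v').map_smul, Rat.smul_def, Rat.smul_def]
    push_cast
    rfl
  have h2 : bil B (qx ρ g ((m : ℚ) • v)) (qx ρ g ((n : ℚ) • w)) =
      bil B ((m : ℚ) • v) ((n : ℚ) • w) := by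
    rw [ha, hb]
    have h3 : ∀ a : A, qx ρ g (tm a) = tm (ρ g a) := fun a => rfl
    rw [h3, h3, bil_tm, bil_tm, hB]
  rw [(qx ρ g).map_smul, (qx ρ g).map_smul, h1, h1] at h2
  exact mul_left_cancel₀ hn' (mul_left_cancel₀ hm' h2)

variable [Fintype G]

/-- **A basis of the invariants.** -/
theorem exists_basis_inv (ρ : Representation ℤ G A) (H : Subgroup G) {r : ℕ} {a : Fin r → A}
    (ha : ∀ l, ∀ h ∈ H, ρ h (a l) = a l) (hli : LinearIndependent ℤ a)
    (hmax : ∀ x, (∀ h ∈ H, ρ h x = x) → ∃ m : ℤ, m ≠ 0 ∧ m • x ∈ Submodule.span ℤ (Set.range a)) :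
    ∃ b : Basis (Fin r) ℚ (inv (qx ρ) H), ∀ l, (b l : ℚ ⊗[ℤ] A) = tm (a l) := by
  have hmem : ∀ l, tm (a l) ∈ inv (qx ρ) H := by
    intro l h hh
    change tm (ρ h (a l)) = tm (a l)
    rw [ha l h hh]
  let w : Fin r → inv (qx ρ) H := fun l => ⟨tm (a l), hmem l⟩
  have hw : LinearIndependent ℚ w := by
    apply LinearIndependent.of_comp (inv (qx ρ) H).subtype
    exact tm_indep hli
  have hspan : ⊤ ≤ Submodule.span ℚ (Set.range w) := by
    rintro ⟨v, hv⟩ -
    obtain ⟨m, x, hm, hx⟩ := exists_tm v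
    set y : A := ∑ h : H, ρ h.1 x with hy
    have hyi : ∀ g ∈ H, ρ g y = y := by
      intro g hg
      rw [hy, map_sum, ← Equiv.sum_comp (Equiv.mulLeft (⟨g, hg⟩ : H)) (fun h : H => ρ h.1 x)]
      refine Finset.sum_congr rfl fun h _ => ?_
      change ρ g (ρ h.1 x) = ρ (g * h.1) x
      rw [map_mul]
      rfl
    obtain ⟨n, hn, hny⟩ := hmax y hyi
    have h1 : tm y = ((Fintype.card H : ℕ) : ℚ) • ((m : ℚ) • v) := by
      rw [hy, tm_sum]
      have h2 : ∀ h : H, tm (ρ h.1 x) = (m : ℚ) • v := by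
        intro h
        have h3 : tm (ρ h.1 x) = qx ρ h.1 (tm x) := rfl
        rw [h3, ← hx, map_smul, hv h.1 h.2]
      rw [Finset.sum_congr rfl fun h _ => h2 h, Finset.sum_const, Finset.card_univ,
        ← Nat.cast_smul_eq_nsmul ℚ]
    have h2 : ∀ z ∈ Submodule.span ℤ (Set.range a),
        tm z ∈ Submodule.span ℚ (Set.range fun l => tm (a l)) := by
      intro z hz
      induction hz using Submodule.span_induction with
      | mem z hz =>
        obtain ⟨l, rfl⟩ := hz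
        exact Submodule.subset_span ⟨l, rfl⟩
      | zero =>
        have : tm (0 : A) = 0 := TensorProduct.tmul_zero _ _
        rw [this]
        exact Submodule.zero_mem _
      | add x y _ _ hx hy =>
        rw [tm_add]
        exact Submodule.add_mem _ hx hy
      | smul c x _ hx =>
        rw [tm_zsmul]
        exact Submodule.smul_mem _ _ hx
    have h3 := h2 _ hny
    rw [tm_zsmul, h1, smul_smul, smul_smul] at h3
    have hc : (n : ℚ) * ((Fintype.card H : ℕ) : ℚ) * (m : ℚ) ≠ 0 := by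
      have : ((Fintype.card H : ℕ) : ℚ) ≠ 0 := by exact_mod_cast Fintype.card_ne_zero
      have hn' : (n : ℚ) ≠ 0 := by exact_mod_cast hn
      have hm' : (m : ℚ) ≠ 0 := by exact_mod_cast hm
      exact mul_ne_zero (mul_ne_zero hn' this) hm'
    have h4 : v ∈ Submodule.span ℚ (Set.range fun l => tm (a l)) :=
      (Submodule.smul_mem_iff _ hc).1 h3
    have h5 : (Submodule.span ℚ (Set.range w)).map (inv (qx ρ) H).subtype =
        Submodule.span ℚ (Set.range fun l => tm (a l)) := by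
      rw [Submodule.map_span, ← Set.range_comp]
      rfl
    rw [← h5] at h4
    obtain ⟨u, hu, huv⟩ := h4
    have h6 : u = ⟨v, hv⟩ := Subtype.ext huv
    rwa [h6] at hu
  refine ⟨Basis.mk hw hspan, fun l => ?_⟩
  rw [Basis.mk_apply]

/-- **The Gram determinants in a relation.** -/
theorem lattice_rel (ρ : Representation ℤ G A) [Module.Finite ℤ A] {B : A →+ A →+ ℝ}
    (hB : ∀ g x y, B (ρ g x) (ρ g y) = B x y)
    (hdet : ∀ (κ : Type) [Fintype κ] (P : κ → A), LinearIndependent ℤ P →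
      (Matrix.of fun l m => B (P l) (P m) : Matrix κ κ ℝ).det ≠ 0)
    {ι : Type} [Fintype ι] (H : ι → Subgroup G) (n : ι → ℤ) (h : ∀ g, ∑ j, n j * fq (H j) g = 0)
    (r : ι → ℕ) (a : ∀ j, Fin (r j) → A) (ha : ∀ j l, ∀ h ∈ H j, ρ h (a j l) = a j l)
    (hli : ∀ j, LinearIndependent ℤ (a j))
    (hmax : ∀ j x, (∀ h ∈ H j, ρ h x = x) →
      ∃ m : ℤ, m ≠ 0 ∧ m • x ∈ Submodule.span ℤ (Set.range (a j))) :
    ∃ q : ℚ, q ≠ 0 ∧ ∏ j, (Matrix.of fun l m => B (a j l) (a j m) :
      Matrix (Fin (r j)) (Fin (r j)) ℝ).det ^ (n j) = (q : ℝ) := by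
  obtain ⟨κ, P, -, hspan, hind⟩ := exists_linearIndependent' ℚ (tm : A → ℚ ⊗[ℤ] A)
  have htop : Submodule.span ℚ (Set.range (tm : A → ℚ ⊗[ℤ] A)) = ⊤ := by
    rw [eq_top_iff]
    intro v _
    obtain ⟨m, x, hm, hx⟩ := exists_tm v
    have hm' : (m : ℚ) ≠ 0 := by exact_mod_cast hm
    refine (Submodule.smul_mem_iff _ hm').1 ?_
    rw [hx]
    exact Submodule.subset_span ⟨x, rfl⟩
  have hfin : Finite κ := hind.finite_of_isNoetherian
  have := Fintype.ofFinite κ
  let v : Basis κ ℚ (ℚ ⊗[ℤ] A) := Basis.mk hind (by rw [hspan, htop])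
  have hv : ∀ l, v l = tm (P l) := fun l => Basis.mk_apply _ _ _
  have hPli : LinearIndependent ℤ P := by
    rw [Fintype.linearIndependent_iff]
    intro c hc l
    have h1 := (Fintype.linearIndependent_iff.1 hind) (fun l => (c l : ℚ)) (by
      have h2 := congrArg tm hc
      rw [tm_sum] at h2
      have h3 : tm (0 : A) = 0 := TensorProduct.tmul_zero _ _
      rw [h3] at h2
      rw [← h2]
      exact Finset.sum_congr rfl fun l _ => (tm_zsmul _ _).symm)
    exact_mod_cast h1 l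
  choose b hb using fun j => exists_basis_inv ρ (H j) (ha j) (hli j) (hmax j)
  obtain ⟨q, hq, hprod⟩ := gram_rel (k := ℚ) (R := ℝ) (qx ρ) v (bil B) (bil_inv hB) (by
    have h1 : gram (bil B) v = Matrix.of fun l m => B (P l) (P m) := by
      ext l m
      change bil B (v l) (v m) = _
      rw [hv, hv, bil_tm]
      rfl
    rw [h1]
    exact hdet κ P hPli) H n h (fun j => Fin (r j)) b
  refine ⟨q, hq, ?_⟩
  rw [← eq_ratCast (algebraMap ℚ ℝ) q, ← hprod]
  refine Finset.prod_congr rfl fun j _ => ?_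
  have h1 : gram (bil B) (fun l => (b j l : ℚ ⊗[ℤ] A)) =
      Matrix.of fun l m => B (a j l) (a j m) := by
    ext l m
    change bil B (b j l) (b j m) = _
    rw [hb, hb, bil_tm]
    rfl
  rw [h1]
  have h9 : ∀ (i₁ i₂ : DecidableEq (Fin (r j))) (L : Matrix (Fin (r j)) (Fin (r j)) ℝ),
      @Matrix.det _ i₁ _ ℝ _ L = @Matrix.det _ i₂ _ ℝ _ L := fun i₁ i₂ L => by
    rw [Subsingleton.elim i₁ i₂]
  exact congrArg (fun t : ℝ => t ^ n j) (h9 _ _ _)

end

end Pool.Agent.Q92.LV
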