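import Pool.Agent.Q92.LV.Root

/-! General relations between permutation characters. -/

set_option autoImplicit false
set_option linter.unusedSectionVars false

namespace Pool.Agent.Q92.LV

open NumberField IsDedekindDomain Filter Pool.Agent.W353.NF Pool.Agent.W401.Cheb
  Pool.Agent.Q5.BR Pool.Agent.Q92.FE Pool.Agent.H341R2 Pool.Agent.H341R2.EC
  Pool.Agent.H921R2.TatePole Topology
open Pool.Agent.TH322.BC.Edge (MinimalModels)
open scoped Classical

open Pool.Agent.TH322.BC.Edge renaming LSeries → LS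

section
variable {K : Type} [Field K] [NumberField K] {ι : Type} [Fintype ι]

/-- one more field -/
def consX (X₀ : Ext K) (X : ι → Ext K) : Option ι → Ext K := fun o => o.elim X₀ X

/-- one more coefficient -/
def consN (n₀ : ℤ) (n : ι → ℤ) : Option ι → ℤ := fun o => o.elim n₀ n

theorem consX_rel {X₀ : Ext K} {X : ι → Ext K} {n₀ : ℤ} {n : ι → ℤ}
    (h : ∀ σ : GK K, n₀ * (fixn K X₀.F σ : ℤ) + ∑ j, n j * (fixn K (X j).F σ : ℤ) = 0)
    (σ : GK K) : ∑ o, consN n₀ n o * (fixn K (consX X₀ X o).F σ : ℤ) = 0 := by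
  rw [Fintype.sum_option]
  exact h σ

/-- **Solving a relation for one of the fields.** -/
theorem lt_solve {D : Set ℂ} (hD : (1 : ℂ) ∈ D) {X₀ : Ext K} {X : ι → Ext K} {n₀ : ℤ}
    {n : ι → ℤ}
    (hrel : ∀ σ : GK K, n₀ * (fixn K X₀.F σ : ℤ) + ∑ j, n j * (fixn K (X j).F σ : ℤ) = 0)
    {E : WeierstrassCurve K} (hE : E.IsElliptic) {r₀ : ℤ} {r : ι → ℤ}
    (hr : n₀ * r₀ + ∑ j, n j * r j = 0) {c₀ : ℝ} {c : ι → ℝ}
    (hc : Sim (c₀ ^ n₀ * ∏ j, (c j) ^ (n j)) 1) (t : ℤ)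
    (h : ∀ j, AllLT D (E.map (algebraMap K (X j).F)) t (r j) (c j)) :
    AllLT D (E.map (algebraMap K X₀.F)) (n₀ * t) r₀ c₀ := by
  intro W hW
  obtain ⟨V₀, hV₀⟩ := exists_minimalModels E hE
  have hEj : ∀ j, (E.map (algebraMap K (X j).F)).IsElliptic := fun j => inferInstance
  choose V hV using fun j => exists_minimalModels (E.map (algebraMap K (X j).F)) (hEj j)
  let V' : ∀ o : Option ι, HeightOneSpectrum (𝓞 (consX X₀ X o).F) →
      WeierstrassCurve (𝓞 (consX X₀ X o).F) := fun o => match o with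
    | none => W
    | some j => V j
  have hV' : ∀ o, MinimalModels (E.map (algebraMap K (consX X₀ X o).F)) (V' o) := fun o =>
    match o with
    | none => hW
    | some j => hV j
  obtain ⟨S, hS⟩ := LS_pow (m := 0) (fun σ => by rw [consX_rel hrel σ]) hE hV₀ hV'
  choose f hf hf' hf'' hf3 using fun j => h j (V j) (hV j)
  have hR := Rfun_meromorphic (consN n₀ n) 0 V₀ V' S
  have hR1 : MeromorphicAt (Rfun (consN n₀ n) 0 V₀ V' S) 1 := hR 1 (Set.mem_univ _)
  have hm : ∀ j, MeromorphicAt (f j) 1 := fun j => hf j 1 hD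
  have hG : ∀ s ∈ D, MeromorphicAt
      (fun s => (Rfun (consN n₀ n) 0 V₀ V' S s) ^ t * ∏ j, (f j s) ^ (n j)) s := by
    intro s hs
    refine MeromorphicAt.fun_mul ?_ (MeromorphicAt.fun_prod fun j _ => ?_)
    · exact MeromorphicAt.fun_zpow (hR s (Set.mem_univ s)) t
    · exact MeromorphicAt.fun_zpow (hf j s hs) (n j)
  refine ⟨fun s => ((Rfun (consN n₀ n) 0 V₀ V' S s) ^ t * ∏ j, (f j s) ^ (n j)) ^ (-1 : ℤ),
    fun s hs => (hG s hs).fun_zpow _, fun s hs => ?_, ?_, ?_⟩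
  · have h1 := hS s hs
    rw [zpow_zero, Fintype.prod_option] at h1
    change 1 = Rfun (consN n₀ n) 0 V₀ V' S s * ((LS W s) ^ n₀ * ∏ j, (LS (V j) s) ^ (n j)) at h1
    have h2 : (1 : ℂ) = (Rfun (consN n₀ n) 0 V₀ V' S s ^ t * ∏ j, (f j s) ^ (n j)) *
        (LS W s) ^ (n₀ * t) := by
      have h3 : (1 : ℂ) = (1 : ℂ) ^ t := (_root_.one_zpow t).symm
      rw [h3]
      conv_lhs => rw [h1]
      rw [mul_zpow, mul_zpow, zpow_mul, ← Finset.prod_zpow, mul_assoc]
      congr 1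
      rw [mul_comm]
      congr 1
      refine Finset.prod_congr rfl fun j _ => ?_
      rw [hf' j s hs, ← zpow_mul, ← zpow_mul, mul_comm]
    change (_ : ℂ) ^ (-1 : ℤ) = _
    rw [zpow_neg_one]
    exact inv_eq_of_mul_eq_one_right h2.symm
  · rw [fun_meromorphicOrderAt_zpow (hG 1 hD), fun_meromorphicOrderAt_mul (hR1.fun_zpow t)
      (MeromorphicAt.fun_prod fun j _ => (hm j).fun_zpow (n j)), fun_meromorphicOrderAt_zpow hR1,
      Rfun_order, mul_zero, zero_add]
    have h4 : meromorphicOrderAt (fun s => ∏ j, (f j s) ^ (n j)) 1 =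
        ∑ j, meromorphicOrderAt (fun s => (f j s) ^ (n j)) 1 := by
      rw [← meromorphicOrderAt_prod fun j _ => (hm j).fun_zpow (n j)]
      congr 1
      ext s
      rw [Finset.prod_apply]
    rw [h4]
    have h5 : ∀ j, meromorphicOrderAt (fun s => (f j s) ^ (n j)) 1 =
        ((n j * (t * r j) : ℤ) : WithTop ℤ) := by
      intro j
      rw [fun_meromorphicOrderAt_zpow (hm j), hf'' j]
      rfl
    rw [Finset.sum_congr rfl fun j _ => h5 j, ← WithTop.coe_sum]
    have h6 : n₀ * t * r₀ = (-1) * ∑ j, n j * (t * r j) := by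
      have h7 : ∑ j, n j * (t * r j) = t * ∑ j, n j * r j := by
        rw [Finset.mul_sum]
        exact Finset.sum_congr rfl fun j _ => by ring
      rw [h7]
      linear_combination t * hr
    rw [h6]
    rfl
  · rw [(hG 1 hD).meromorphicTrailingCoeffAt_fun_zpow,
      MeromorphicAt.meromorphicTrailingCoeffAt_fun_mul (hR1.fun_zpow t)
      (MeromorphicAt.fun_prod fun j _ => (hm j).fun_zpow _),
      hR1.meromorphicTrailingCoeffAt_fun_zpow,
      AnalyticAt.meromorphicTrailingCoeffAt_of_ne_zero (Rfun_analytic (consN n₀ n) 0 V₀ V' S)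
        (Rfun_one_ne (consN n₀ n) 0 V₀ V' S),
      meromorphicTrailingCoeffAt_fun_prod (fun j _ => (hm j).fun_zpow _),
      Finset.prod_congr rfl fun j _ => (hm j).meromorphicTrailingCoeffAt_fun_zpow (n := n j)]
    have h1 : Sim (∏ j, (meromorphicTrailingCoeffAt (f j) 1) ^ (n j))
        (∏ j, (((c j : ℝ) : ℂ) ^ t) ^ (n j)) := Sim.prod _ fun j _ => (hf3 j).zpow _
    have h3 : ∏ j, (((c j : ℝ) : ℂ) ^ t) ^ (n j) = (((∏ j, (c j) ^ (n j)) : ℝ) : ℂ) ^ t := by
      push_cast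
      rw [← Finset.prod_zpow]
      refine Finset.prod_congr rfl fun j _ => ?_
      rw [← zpow_mul, ← zpow_mul, mul_comm]
    have h4 : Sim ((((∏ j, (c j) ^ (n j)) : ℝ) : ℂ) ^ t) ((((c₀ : ℝ) : ℂ) ^ (n₀ * t))⁻¹) := by
      obtain ⟨q, hq, h5⟩ := hc
      have hq' : (q : ℝ) ≠ 0 := by exact_mod_cast hq
      rw [mul_one] at h5
      have h6 : c₀ ^ n₀ ≠ 0 := by
        intro h7
        rw [h7, zero_mul] at h5
        exact hq' h5.symm
      have h7 : ∏ j, (c j) ^ (n j) = (q : ℝ) * (c₀ ^ n₀)⁻¹ := by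
        field_simp
        linarith
      refine ⟨q ^ t, zpow_ne_zero _ hq, ?_⟩
      rw [h7]
      push_cast
      rw [mul_zpow, inv_zpow, zpow_mul]
    have h5 := (((Rfun_rat (consN n₀ n) 0 V₀ V' S).one_zpow t).mul
      (h1.trans ((Sim.of_eq h3).trans h4))).zpow (-1)
    rw [one_mul, zpow_neg_one, zpow_neg_one, inv_inv] at h5
    rw [zpow_neg_one]
    exact h5

/-- the regulators -/
theorem reg_rel0 {X : ι → Ext K} {n : ι → ℤ}
    (h : ∀ σ : GK K, ∑ j, n j * (fixn K (X j).F σ : ℤ) = 0) {E : WeierstrassCurve K}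
    (hE : E.IsElliptic) (b : Bool) (p : Periods E) :
    Sim (∏ j, (cst b (p.up (X j).F)) ^ (n j)) (1 : ℝ) := by
  have h1 := cst_rel (m := 0) b h hE p
  rwa [zpow_zero] at h1

/-- **The law of relations.** -/
theorem pp_solve (b : Bool) {D : Set ℂ} (hD : (1 : ℂ) ∈ D) {E : WeierstrassCurve K}
    (hE : E.IsElliptic) (p : Periods E) {X₀ : Ext K} {X : ι → Ext K} {n₀ : ℤ} {n : ι → ℤ}
    (hrel : ∀ σ : GK K, n₀ * (fixn K X₀.F σ : ℤ) + ∑ j, n j * (fixn K (X j).F σ : ℤ) = 0) (t : ℤ)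
    (h : ∀ j, PP b D p (X j).F t) : PP b D p X₀.F (n₀ * t) := by
  have hrel' := consX_rel hrel
  have h1 := rr_rel' (m := 0) b hrel' hE
  have h2 := reg_rel0 hrel' hE b p
  rw [Fintype.sum_option, zero_mul] at h1
  rw [Fintype.prod_option] at h2
  exact lt_solve hD hrel hE h1 h2 t h

end

end Pool.Agent.Q92.LV
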