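import Pool.Agent.Q92.LV.Pub
import Pool.Agent.Q92.PA.Loc

/-! Powers of the leading coefficients. -/

set_option autoImplicit false
set_option linter.unusedSectionVars false

namespace Pool.Agent.Q92.LV

open NumberField IsDedekindDomain Filter Pool.Agent.Q5.BR Topology
open Pool.Agent.TH322.BC.Edge (MinimalModels)
open scoped Classical

open Pool.Agent.TH322.BC.Edge renaming LSeries → LS

section
variable {F : Type} [Field F] [NumberField F]

/-- the order and a power of the leading coefficient of a continuation -/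
theorem lt_root {D : Set ℂ} (hD : IsDomain1 D)
    {V : HeightOneSpectrum (𝓞 F) → WeierstrassCurve (𝓞 F)} {t : ℕ} (ht : 0 < t) {r : ℤ} {c : ℝ}
    (h : LT D V (t : ℤ) r c) {f : ℂ → ℂ} (hf : MeromorphicOn f D)
    (hf' : ∀ s : ℂ, 3 / 2 < s.re → f s = LS V s) :
    meromorphicOrderAt f 1 = (r : WithTop ℤ) ∧
      Sim (meromorphicTrailingCoeffAt f 1 ^ t) ((c : ℂ) ^ t) := by
  obtain ⟨g, hg, hg', h3, h4⟩ := h
  have hm : MeromorphicAt f 1 := hf 1 hD.2.2.1
  have hid := ident1 hD (f := fun s => (f s) ^ (t : ℤ)) (g := g)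
    (fun s hs => (hf s hs).fun_zpow _) hg fun s hs => by
      rw [hg' s hs, hf' s hs]
  have h5 : meromorphicOrderAt (fun s => (f s) ^ (t : ℤ)) 1 = meromorphicOrderAt g 1 :=
    meromorphicOrderAt_congr hid
  have h6 : meromorphicTrailingCoeffAt (fun s => (f s) ^ (t : ℤ)) 1 =
    meromorphicTrailingCoeffAt g 1 := meromorphicTrailingCoeffAt_congr_nhdsNE hid
  rw [fun_meromorphicOrderAt_zpow hm, h3] at h5
  rw [hm.meromorphicTrailingCoeffAt_fun_zpow] at h6
  refine ⟨?_, ?_⟩
  · have htz : (t : ℤ) ≠ 0 := by exact_mod_cast ht.ne'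
    cases hord : meromorphicOrderAt f 1 with
    | top =>
      rw [hord] at h5
      exfalso
      have h7 : ((t : ℤ) : WithTop ℤ) * (⊤ : WithTop ℤ) = ⊤ :=
        WithTop.mul_top (by exact_mod_cast htz)
      rw [h7] at h5
      exact WithTop.top_ne_coe h5
    | coe a =>
      rw [hord] at h5
      have h7 : (t : ℤ) * a = (t : ℤ) * r := by exact_mod_cast h5
      have h8 : a = r := mul_left_cancel₀ htz h7
      rw [h8]
  · rw [← h6] at h4
    rw [zpow_natCast, zpow_natCast] at h4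
    exact h4

/-- the rank and a power of the leading coefficient -/
theorem lead_root {D : Set ℂ} (hD : IsDomain1 D) {E : WeierstrassCurve F} (hE : E.IsElliptic)
    {t : ℕ} (ht : 0 < t) {c : ℝ} (h : AllLT D E (t : ℤ) (rk E) (c * reg E))
    {V : HeightOneSpectrum (𝓞 F) → WeierstrassCurve (𝓞 F)} (hV : MinimalModels E V)
    {f : ℂ → ℂ} (hf : MeromorphicOn f D) (hf' : ∀ s : ℂ, 3 / 2 < s.re → f s = LS V s) :
    meromorphicOrderAt f 1 = ((rk E : ℤ) : WithTop ℤ) ∧
      ∃ (q : ℚ) (R : ℝ), q ≠ 0 ∧ IsRegE E R ∧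
        meromorphicTrailingCoeffAt f 1 ^ t = q * ((c * R : ℝ) : ℂ) ^ t := by
  obtain ⟨h1, q, hq, h2⟩ := lt_root hD ht (h V hV) hf hf'
  exact ⟨h1, q, reg E, hq, reg_spec hE, h2⟩

end

section
variable {K : Type} [Field K] [NumberField K]
open Pool.Agent.W353.NF Pool.Agent.W401.Cheb Pool.Agent.Q92.PA

/-- the absolute value of the exponent -/
theorem pp_natAbs (b : Bool) {D : Set ℂ} (hD : (1 : ℂ) ∈ D) {E : WeierstrassCurve K}
    (hE : E.IsElliptic) (P : Periods E) {F : Type} [Field F] [NumberField F] [Algebra K F] {t : ℤ}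
    (h : PP b D P F t) : PP b D P F ((t.natAbs : ℕ) : ℤ) := by
  rcases Int.natAbs_eq t with h1 | h1
  · rwa [← h1]
  · have h2 := (pp_law b hD hE P).neg F t h
    rw [h1, neg_neg] at h2
    exact h2

/-- **Families**, for one prime. -/
theorem pp_exactAt (b : Bool) {D : Set ℂ} (hD : (1 : ℂ) ∈ D) {E : WeierstrassCurve K}
    (hE : E.IsElliptic) (P : Periods E) {p : ℕ} (hp : p.Prime)
    {𝓕 : Set (IntermediateField K (AlgebraicClosure K))} (hF : ExactAt p 𝓕)
    (h : ∀ F ∈ 𝓕, ∀ [NumberField F], PP b D P F 1) :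
    ∃ c : ℕ, ¬ p ∣ c ∧ PP b D P K (c : ℤ) := by
  obtain ⟨ι, _, F, n, c, hc, hFj, hrel⟩ := exactAt_relation hp hF
  have hfd : ∀ j, FiniteDimensional K (F j) := fun j => hF.1 _ (hFj j)
  have hnf : ∀ j, NumberField (F j) := fun j => NumberField.of_module_finite K _
  let Y : ι → Ext K := fun j => @Ext.mk K _ _ (F j) _ (hnf j) _
  have h1 := (pp_law b hD hE P).step K ι Y n c hrel 1 fun j => h (F j) (hFj j)
  rw [mul_one] at h1
  exact ⟨c.natAbs, fun h2 => hc (Int.natCast_dvd.2 h2), pp_natAbs b hD hE P h1⟩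

/-- **Galois extensions**, for one prime. -/
theorem pp_galoisP (b : Bool) {D : Set ℂ} (hD : (1 : ℂ) ∈ D) {E : WeierstrassCurve K}
    (hE : E.IsElliptic) (P : Periods E) {p : ℕ} (hp : p.Prime) (L : Type) [Field L]
    [NumberField L] [Algebra K L] [IsGalois K L]
    (h : ∀ (F : Type) [Field F] [NumberField F] [Algebra K F] [Algebra F L] [IsScalarTower K F L],
      HyperP p (L ≃ₐ[F] L) → PP b D P F 1)
    (F : Type) [Field F] [NumberField F] [Algebra K F] [Algebra F L] [IsScalarTower K F L] :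
    ∃ c : ℕ, ¬ p ∣ c ∧ PP b D P F (c : ℤ) := by
  have hgal : IsGalois F L := IsGalois.tower_top_of_isGalois K F L
  obtain ⟨ι, hι, Y, a, n, c, hst, hc, hY, hrel⟩ := hyperP_relation hp L F
  let _ : ∀ j, Algebra K (Y j).F := fun j =>
    ((algebraMap F (Y j).F).comp (algebraMap K F)).toAlgebra
  have hst1 : ∀ j, IsScalarTower K F (Y j).F := fun j =>
    IsScalarTower.of_algebraMap_eq fun x => rfl
  have hst2 : ∀ j, @IsScalarTower K (Y j).F L _ (a j).toSMul _ := fun j => by
    let _ := a j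
    have := hst j
    refine IsScalarTower.of_algebraMap_eq fun x => ?_
    rw [IsScalarTower.algebraMap_apply K F (Y j).F, ← IsScalarTower.algebraMap_apply F (Y j).F L,
      ← IsScalarTower.algebraMap_apply K F L]
  have h1 := (pp_law b hD hE P).step F ι Y n c hrel 1 fun j => by
    let _ := a j
    have := hst2 j
    exact h (Y j).F (hY j)
  rw [mul_one] at h1
  exact ⟨c.natAbs, fun h2 => hc (Int.natCast_dvd.2 h2), pp_natAbs b hD hE P h1⟩

end

end Pool.Agent.Q92.LV
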